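import Mathlib
import Pool.Agent.Y18.NF.Chars

/-!
# The characters of order two of the units modulo an odd number
-/

set_option autoImplicit false

namespace Pool.Agent.U621.PAR

open Finset Pool.Agent.Y18.BSD

/-- the Chinese remainder theorem for the prime factors -/
theorem crt (q : ℕ) (f : ℕ → ℕ) : ∃ a : ℕ, ∀ p ∈ q.primeFactors, a ≡ f p [MOD p] := by
  obtain ⟨a, ha⟩ := Nat.chineseRemainderOfFinset f (fun p => p) q.primeFactors
    (fun p hp => (Nat.prime_of_mem_primeFactors hp).ne_zero) (by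
      intro p hp r hr hne
      exact (Nat.coprime_primes (Nat.prime_of_mem_primeFactors hp)
        (Nat.prime_of_mem_primeFactors hr)).2 hne)
  exact ⟨a, ha⟩

theorem unit_of (q : ℕ) [NeZero q] (a : ℕ) (h : ∀ p ∈ q.primeFactors, ¬ p ∣ a) :
    ∃ w : (ZMod q)ˣ, (w : ZMod q) = a := by
  have h1 : Nat.Coprime a q := by
    refine Nat.coprime_of_dvd fun p hp hpa hpq => ?_
    exact h p (Nat.mem_primeFactors.2 ⟨hp, hpq, NeZero.ne q⟩) hpa
  exact (ZMod.isUnit_iff_coprime a q).2 h1

/-- an element of odd order is a square -/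
theorem sq_of_odd {H : Type} [Group H] {x : H} (h : Odd (orderOf x)) : ∃ y : H, x = y * y := by
  obtain ⟨k, hk⟩ := h
  refine ⟨x ^ (k + 1), ?_⟩
  rw [← pow_add, show k + 1 + (k + 1) = orderOf x + 1 by omega, pow_succ, pow_orderOf_eq_one,
    one_mul]

/-- a unit that is one modulo all the primes has odd order -/
theorem odd_order {q : ℕ} [NeZero q] (hq : Odd q) (x : (ZMod q)ˣ)
    (h : ∀ p ∈ q.primeFactors, (x : ZMod q).val ≡ 1 [MOD p]) : Odd (orderOf x) := by
  by_contra he
  rw [Nat.not_odd_iff_even] at he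
  obtain ⟨k, hk⟩ := he
  have hpos : 0 < orderOf x := orderOf_pos x
  have hk0 : 0 < k := by omega
  set e := x ^ k with hedef
  have he1 : e ≠ 1 := by
    intro h1
    have h2 := orderOf_dvd_of_pow_eq_one h1
    have := Nat.le_of_dvd hk0 h2
    omega
  have he2 : e * e = 1 := by
    rw [hedef, ← pow_add, ← hk, pow_orderOf_eq_one]
  apply he1
  -- the natural number representing `e`
  set v := (e : ZMod q).val with hv
  have hcast : ((v : ℕ) : ZMod q) = (e : ZMod q) := ZMod.natCast_zmod_val _
  have hmod : ∀ p ∈ q.primeFactors, v ≡ 1 [MOD p] := by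
    intro p hp
    have hpq : p ∣ q := Nat.dvd_of_mem_primeFactors hp
    have h1 : ((v : ℕ) : ZMod p) = 1 := by
      have h2 : (ZMod.castHom hpq (ZMod p)) (e : ZMod q) = 1 := by
        rw [hedef, Units.val_pow_eq_pow_val, map_pow]
        have h3 : (ZMod.castHom hpq (ZMod p)) (x : ZMod q) = 1 := by
          have h4 := (ZMod.natCast_eq_natCast_iff _ _ p).2 (h p hp)
          rw [Nat.cast_one] at h4
          rw [← h4]
          conv_lhs => rw [← ZMod.natCast_zmod_val (x : ZMod q)]
          rw [map_natCast]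
        rw [h3, one_pow]
      rw [← h2, ← hcast, map_natCast]
    have h5 := (ZMod.natCast_eq_natCast_iff v 1 p).1 (by rw [h1, Nat.cast_one])
    exact h5
  have hun : IsUnit ((v + 1 : ℕ) : ZMod q) := by
    obtain ⟨w, hw⟩ := unit_of q (v + 1) (by
      intro p hp hpv
      have h1 := hmod p hp
      have hpp := Nat.prime_of_mem_primeFactors hp
      have h2 : v + 1 ≡ 2 [MOD p] := h1.add_right 1
      have h3 : p ∣ 2 := (Nat.modEq_zero_iff_dvd.1 (h2.symm.trans (Nat.modEq_zero_iff_dvd.2 hpv)))
      have h4 := (Nat.prime_dvd_prime_iff_eq hpp Nat.prime_two).1 h3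
      subst h4
      have h5 : 2 ∣ q := Nat.dvd_of_mem_primeFactors hp
      obtain ⟨j, hj⟩ := hq
      omega)
    rw [← hw]
    exact w.isUnit
  apply Units.ext
  rw [Units.val_one]
  have h6 : ((e : ZMod q) - 1) * ((v + 1 : ℕ) : ZMod q) = 0 := by
    push_cast
    rw [hcast]
    have h7 : (e : ZMod q) * (e : ZMod q) = 1 := by
      rw [← Units.val_mul, he2, Units.val_one]
    linear_combination h7
  have h8 := hun.mul_left_eq_zero.1 h6
  exact sub_eq_zero.1 h8

/-- a unit that is a square modulo all the primes is a square -/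
theorem sq_of_local {q : ℕ} [NeZero q] (hq : Odd q) (u : (ZMod q)ˣ)
    (h : ∀ p ∈ q.primeFactors, jacobiSym ((u : ZMod q).val : ℤ) p = 1) :
    ∃ w : (ZMod q)ˣ, u = w * w := by
  classical
  have hloc : ∀ p ∈ q.primeFactors, ∃ a : ℕ, a * a ≡ (u : ZMod q).val [MOD p] := by
    intro p hp
    have hpp := Nat.prime_of_mem_primeFactors hp
    have hf : Fact p.Prime := ⟨hpp⟩
    have h1 := h p hp
    rw [← jacobiSym.legendreSym.to_jacobiSym] at h1
    have h0 : (((u : ZMod q).val : ℤ) : ZMod p) ≠ 0 := by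
      intro h2
      rw [(legendreSym.eq_zero_iff p _).2 h2] at h1
      exact zero_ne_one h1
    obtain ⟨y, hy⟩ := (legendreSym.eq_one_iff p h0).1 h1
    refine ⟨y.val, ?_⟩
    rw [← ZMod.natCast_eq_natCast_iff, Nat.cast_mul, ZMod.natCast_zmod_val]
    rw [← hy]
    push_cast
    rfl
  choose! a ha using hloc
  obtain ⟨b, hb⟩ := crt q a
  have hcopu : Nat.Coprime (u : ZMod q).val q := ZMod.val_coe_unit_coprime u
  obtain ⟨w, hw⟩ := unit_of q b (by
    intro p hp hpb
    have hpp := Nat.prime_of_mem_primeFactors hp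
    have h1 : p ∣ a p := by
      have := (Nat.modEq_zero_iff_dvd.2 hpb)
      exact Nat.modEq_zero_iff_dvd.1 ((hb p hp).symm.trans this)
    have h2 : p ∣ (u : ZMod q).val := by
      have h3 : a p * a p ≡ 0 [MOD p] := Nat.modEq_zero_iff_dvd.2 (h1.mul_right _)
      exact Nat.modEq_zero_iff_dvd.1 ((ha p hp).symm.trans h3)
    have h4 := Nat.Coprime.coprime_dvd_right (Nat.dvd_of_mem_primeFactors hp) hcopu
    have h5 : p ∣ 1 := by
      rw [← h4]
      exact Nat.dvd_gcd h2 dvd_rfl
    exact hpp.one_lt.ne' (Nat.dvd_one.1 h5))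
  obtain ⟨x, hx⟩ : ∃ x : (ZMod q)ˣ, x = u * (w * w)⁻¹ := ⟨_, rfl⟩
  have hodd : Odd (orderOf x) := by
    refine odd_order hq x fun p hp => ?_
    have hpq : p ∣ q := Nat.dvd_of_mem_primeFactors hp
    have h1 : x * (w * w) = u := by rw [hx, inv_mul_cancel_right]
    have h2 : (ZMod.castHom hpq (ZMod p)) (u : ZMod q) =
        (ZMod.castHom hpq (ZMod p)) (w : ZMod q) * (ZMod.castHom hpq (ZMod p)) (w : ZMod q) := by
      have h3 : (ZMod.castHom hpq (ZMod p)) (u : ZMod q) = (((u : ZMod q).val : ℕ) : ZMod p) := by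
        conv_lhs => rw [← ZMod.natCast_zmod_val (u : ZMod q)]
        rw [map_natCast]
      rw [h3, hw, map_natCast, ← Nat.cast_mul, ZMod.natCast_eq_natCast_iff]
      exact (ha p hp).symm.trans ((hb p hp).symm.mul (hb p hp).symm)
    have h4 : (ZMod.castHom hpq (ZMod p)) (x : ZMod q) = 1 := by
      have h5 : (ZMod.castHom hpq (ZMod p)) (x : ZMod q) *
          ((ZMod.castHom hpq (ZMod p)) (w : ZMod q) * (ZMod.castHom hpq (ZMod p)) (w : ZMod q)) =
          (ZMod.castHom hpq (ZMod p)) (w : ZMod q) * (ZMod.castHom hpq (ZMod p)) (w : ZMod q) := by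
        have h8 : (ZMod.castHom hpq (ZMod p)) ((x * (w * w) : (ZMod q)ˣ) : ZMod q) =
            (ZMod.castHom hpq (ZMod p)) (u : ZMod q) := by rw [h1]
        rw [Units.val_mul, Units.val_mul, map_mul, map_mul, h2] at h8
        exact h8
      have h6 : IsUnit ((ZMod.castHom hpq (ZMod p)) (w : ZMod q)) :=
        w.isUnit.map (ZMod.castHom hpq (ZMod p))
      exact (h6.mul h6).mul_right_cancel (h5.trans (one_mul _).symm)
    have h7 : (((x : ZMod q).val : ℕ) : ZMod p) = ((1 : ℕ) : ZMod p) := by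
      rw [Nat.cast_one, ← h4]
      conv_rhs => rw [← ZMod.natCast_zmod_val (x : ZMod q)]
      rw [map_natCast]
    exact (ZMod.natCast_eq_natCast_iff _ _ p).1 h7
  obtain ⟨y, hy⟩ := sq_of_odd hodd
  refine ⟨y * w, ?_⟩
  have h1 : u = x * (w * w) := by rw [hx, inv_mul_cancel_right]
  rw [h1, hy]
  exact mul_mul_mul_comm y y w w

/-- **The characters of order two.** -/
theorem real_char {q : ℕ} [NeZero q] (hq : Odd q) (θ : (ZMod q)ˣ → ℤ)
    (hmul : ∀ u v, θ (u * v) = θ u * θ v) (hval : ∀ u, θ u = 1 ∨ θ u = -1) :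
    ∃ T ⊆ q.primeFactors, ∀ u : (ZMod q)ˣ, θ u = jc T u := by
  classical
  have hprime : ∀ p ∈ q.primeFactors, p.Prime := fun p hp => Nat.prime_of_mem_primeFactors hp
  have hsq : ∀ w : (ZMod q)ˣ, θ (w * w) = 1 := by
    intro w
    rw [hmul]
    rcases hval w with h | h <;> rw [h] <;> norm_num
  have hone : θ 1 = 1 := by
    have := hsq 1
    rwa [mul_one] at this
  -- the units with one local symbol
  have hex : ∀ p ∈ q.primeFactors, ∃ u : (ZMod q)ˣ, jacobiSym ((u : ZMod q).val : ℤ) p = -1 ∧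
      ∀ r ∈ q.primeFactors, r ≠ p → jacobiSym ((u : ZMod q).val : ℤ) r = 1 := by
    intro p hp
    have hpp := hprime p hp
    have hf : Fact p.Prime := ⟨hpp⟩
    have hp2 : ringChar (ZMod p) ≠ 2 := by
      rw [ZMod.ringChar_zmod_n]
      rintro rfl
      have h5 : 2 ∣ q := Nat.dvd_of_mem_primeFactors hp
      obtain ⟨j, hj⟩ := hq
      omega
    obtain ⟨n, hn⟩ := quadraticChar_exists_neg_one' hp2
    obtain ⟨b, hb⟩ := crt q (fun r => if r = p then (n : ZMod p).val else 1)
    have hbp : b ≡ (n : ZMod p).val [MOD p] := by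
      have := hb p hp
      rwa [if_pos rfl] at this
    have hbr : ∀ r ∈ q.primeFactors, r ≠ p → b ≡ 1 [MOD r] := by
      intro r hr hne
      have := hb r hr
      rwa [if_neg hne] at this
    have hnd : ∀ r ∈ q.primeFactors, ¬ r ∣ b := by
      intro r hr hrb
      by_cases hrp : r = p
      · subst hrp
        have h1 : r ∣ (n : ZMod r).val :=
          Nat.modEq_zero_iff_dvd.1 (hbp.symm.trans (Nat.modEq_zero_iff_dvd.2 hrb))
        have h2 : ((n : ZMod r).val : ZMod r) = 0 := (ZMod.natCast_eq_zero_iff _ _).2 h1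
        rw [ZMod.natCast_zmod_val] at h2
        exact n.ne_zero h2
      · have h1 : r ∣ 1 :=
          Nat.modEq_zero_iff_dvd.1 ((hbr r hr hrp).symm.trans (Nat.modEq_zero_iff_dvd.2 hrb))
        exact (hprime r hr).one_lt.ne' (Nat.dvd_one.1 h1)
    obtain ⟨u, hu⟩ := unit_of q b hnd
    have hval' : ∀ r ∈ q.primeFactors, (u : ZMod q).val ≡ b [MOD r] := by
      intro r hr
      have h1 : (u : ZMod q).val ≡ b [MOD q] := by
        rw [hu, ZMod.val_natCast]
        exact Nat.mod_modEq b q
      exact h1.of_dvd (Nat.dvd_of_mem_primeFactors hr)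
    refine ⟨u, ?_, fun r hr hne => ?_⟩
    · rw [jac_congr ((hval' p hp).trans hbp), ← jacobiSym.legendreSym.to_jacobiSym]
      unfold legendreSym
      push_cast
      rw [ZMod.natCast_zmod_val, hn]
    · rw [jac_congr ((hval' r hr).trans (hbr r hr hne))]
      simp
  choose! e he1 he2 using hex
  set T : Finset ℕ := q.primeFactors.filter fun p => θ (e p) = -1 with hT
  refine ⟨T, filter_subset _ _, fun u => ?_⟩
  -- the symbols of products
  have hjm : ∀ (r : ℕ), r ∈ q.primeFactors → ∀ a b : (ZMod q)ˣ,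
      jacobiSym (((a * b : (ZMod q)ˣ) : ZMod q).val : ℤ) r =
        jacobiSym ((a : ZMod q).val : ℤ) r * jacobiSym ((b : ZMod q).val : ℤ) r := by
    intro r hr a b
    have h1 := jc_mul {r} (M := q) (by
      unfold dd
      rw [prod_singleton]
      exact Nat.dvd_of_mem_primeFactors hr) a b
    unfold jc dd at h1
    rwa [prod_singleton] at h1
  have hjp : ∀ (r : ℕ), r ∈ q.primeFactors → ∀ a : (ZMod q)ˣ,
      jacobiSym ((a : ZMod q).val : ℤ) r = 1 ∨ jacobiSym ((a : ZMod q).val : ℤ) r = -1 := by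
    intro r hr a
    apply jacobiSym.eq_one_or_neg_one
    rw [Int.gcd_natCast_natCast]
    exact Nat.Coprime.coprime_dvd_right (Nat.dvd_of_mem_primeFactors hr)
      (ZMod.val_coe_unit_coprime a)
  set R : Finset ℕ := q.primeFactors.filter fun p =>
    jacobiSym ((u : ZMod q).val : ℤ) p = -1 with hR
  -- the product of the units in `R`
  have hprodsym : ∀ (S : Finset ℕ), S ⊆ q.primeFactors → ∀ r ∈ q.primeFactors,
      jacobiSym (((∏ p ∈ S, e p : (ZMod q)ˣ) : ZMod q).val : ℤ) r = if r ∈ S then -1 else 1 := by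
    intro S
    induction S using Finset.induction_on with
    | empty =>
      intro _ r hr
      rw [prod_empty, if_neg (notMem_empty r)]
      have h1 := hjm r hr 1 1
      rw [mul_one] at h1
      rcases hjp r hr 1 with h2 | h2
      · exact h2
      · rw [h2] at h1; norm_num at h1
    | insert p S hpS ih =>
      intro hS r hr
      have hp := hS (mem_insert_self _ _)
      rw [prod_insert hpS, hjm r hr, ih (fun x hx => hS (mem_insert_of_mem hx)) r hr]
      by_cases hrp : r = p
      · subst hrp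
        rw [he1 r hr, if_neg hpS, if_pos (mem_insert_self _ _), mul_one]
      · rw [he2 p hp r hr hrp, one_mul]
        by_cases hrS : r ∈ S
        · rw [if_pos hrS, if_pos (mem_insert_of_mem hrS)]
        · rw [if_neg hrS, if_neg (by
            rw [mem_insert]
            rintro (h | h)
            · exact hrp h
            · exact hrS h)]
  have hRsub : R ⊆ q.primeFactors := filter_subset _ _
  obtain ⟨w, hw⟩ := sq_of_local hq (u * ∏ p ∈ R, e p) (by
    intro r hr
    rw [hjm r hr, hprodsym R hRsub r hr]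
    by_cases hrR : r ∈ R
    · rw [if_pos hrR, (mem_filter.1 hrR).2]
      norm_num
    · rw [if_neg hrR, mul_one]
      rcases hjp r hr u with h | h
      · exact h
      · exact absurd (mem_filter.2 ⟨hr, h⟩) hrR)
  have h1 : θ u * θ (∏ p ∈ R, e p) = 1 := by rw [← hmul, hw, hsq]
  have h2 : θ u = θ (∏ p ∈ R, e p) := by
    rcases hval u with h | h <;> rcases hval (∏ p ∈ R, e p) with h' | h' <;>
      rw [h, h'] at h1 ⊢ <;> norm_num at h1
  have h3 : ∀ (S : Finset ℕ), S ⊆ q.primeFactors → θ (∏ p ∈ S, e p) =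
      ∏ p ∈ S, if p ∈ T then (-1 : ℤ) else 1 := by
    intro S
    induction S using Finset.induction_on with
    | empty => intro _; rw [prod_empty, prod_empty, hone]
    | insert p S hpS ih =>
      intro hS
      have hp := hS (mem_insert_self _ _)
      rw [prod_insert hpS, prod_insert hpS, hmul, ih (fun x hx => hS (mem_insert_of_mem hx))]
      congr 1
      rcases hval (e p) with h | h
      · rw [h, if_neg]
        intro hpT
        rw [hT, mem_filter] at hpT
        rw [h] at hpT
        norm_num at hpT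
      · rw [h, if_pos (mem_filter.2 ⟨hp, h⟩)]
  rw [h2, h3 R hRsub]
  unfold jc
  rw [jac_prod (fun p hp => hprime p (filter_subset _ _ hp))]
  have h4 : ∏ p ∈ T, jacobiSym ((u : ZMod q).val : ℤ) p =
      ∏ p ∈ T, if p ∈ R then (-1 : ℤ) else 1 := by
    refine prod_congr rfl fun p hp => ?_
    have hpq : p ∈ q.primeFactors := filter_subset _ _ hp
    by_cases hpR : p ∈ R
    · rw [if_pos hpR, (mem_filter.1 hpR).2]
    · rw [if_neg hpR]
      rcases hjp p hpq u with h | h
      · exact h
      · exact absurd (mem_filter.2 ⟨hpq, h⟩) hpR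
  rw [h4, prod_ite, prod_ite, prod_const_one, prod_const_one, mul_one, mul_one, prod_const,
    prod_const]
  congr 2
  ext p
  simp only [mem_filter]
  exact and_comm

end Pool.Agent.U621.PAR
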