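import Mathlib
import Pool.Agent.U115.MQ2
import Pool.Agent.U621.PAR.Chr

/-!
# The largest subfield with a Galois group of exponent two, and its characters
-/

set_option autoImplicit false

set_option linter.unusedSectionVars false

set_option linter.unusedVariables false

namespace Pool.Agent.U621.PAR

open Finset NumberField IsCyclotomicExtension.Rat H300.HW

open Pool.Agent.Y18.BSD Pool.Agent.Y18.NF

open Pool.Agent.W97.MT (ap E14 II)

open Pool.Agent.Y682.XD

open Pool.Agent.U115.MQ (GT basel_gen)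

/-- `M` is the largest subfield of `F` whose Galois group has exponent two -/
def IsTwo {L : Type} [Field L] [NumberField L] (F M : IntermediateField ℚ L) : Prop :=
  ∀ x : L, x ∈ M ↔ x ∈ F ∧ ∀ σ : Gal(L/ℚ), σ (σ x) = x

theorem two_le {L : Type} [Field L] [NumberField L] {F M : IntermediateField ℚ L}
    (h : IsTwo F M) : M ≤ F := fun x hx => ((h x).1 hx).1

section

variable {q : ℕ} [NeZero q] {L : Type} [Field L] [NumberField L] [IsCyclotomicExtension {q} ℚ L]

/-- the characters of the largest subfield of exponent two -/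
theorem YY_two {F M : IntermediateField ℚ L} (h : IsTwo F M) (χ : DirichletCharacter ℂ q) :
    χ ∈ YY q L M ↔ χ ∈ YY q L F ∧ χ ^ 2 = 1 := by
  constructor
  · intro hχ
    rw [mem_YY] at hχ
    constructor
    · rw [mem_YY]
      exact fun σ hσ => hχ σ (IntermediateField.fixingSubgroup_antitone (two_le h) hσ)
    · apply MulChar.ext
      intro u
      rw [MulChar.pow_apply_coe, MulChar.one_apply u.isUnit]
      set σ := (galEquivZMod q L).symm u with hσ
      have h1 : σ * σ ∈ M.fixingSubgroup := by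
        rw [IntermediateField.mem_fixingSubgroup_iff]
        intro x hx
        exact ((h x).1 hx).2 σ
      have h2 := hχ _ h1
      rw [map_mul, hσ, MulEquiv.apply_symm_apply, Units.val_mul, map_mul, ← pow_two] at h2
      exact h2
  · rintro ⟨hF, h2⟩
    have hgal : IsGalois ℚ L := IsCyclotomicExtension.isGalois {q} ℚ L
    rw [mem_YY] at hF ⊢
    let N : Subgroup Gal(L/ℚ) :=
      { carrier := {σ | χ (galEquivZMod q L σ) = 1}
        one_mem' := by
          show χ (galEquivZMod q L 1) = 1
          rw [map_one, Units.val_one, map_one]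
        mul_mem' := by
          intro a b ha hb
          show χ (galEquivZMod q L (a * b)) = 1
          rw [map_mul, Units.val_mul, map_mul, show χ (galEquivZMod q L a) = 1 from ha,
            show χ (galEquivZMod q L b) = 1 from hb, one_mul]
        inv_mem' := by
          intro a ha
          have ha' : χ (galEquivZMod q L a) = 1 := ha
          show χ (galEquivZMod q L a⁻¹) = 1
          have h3 : χ ((galEquivZMod q L (a⁻¹ * a) : (ZMod q)ˣ) : ZMod q) = 1 := by
            rw [inv_mul_cancel, map_one, Units.val_one, map_one]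
          rw [map_mul, Units.val_mul, map_mul, ha', mul_one] at h3
          exact h3 }
    have hN : ∀ σ : Gal(L/ℚ), σ ∈ N ↔ χ (galEquivZMod q L σ) = 1 := fun _ => Iff.rfl
    have hle : IntermediateField.fixedField N ≤ M := by
      intro x hx
      rw [IntermediateField.mem_fixedField_iff] at hx
      refine (h x).2 ⟨?_, fun σ => ?_⟩
      · have h3 : x ∈ IntermediateField.fixedField F.fixingSubgroup := by
          rw [IntermediateField.mem_fixedField_iff]
          exact fun σ hσ => hx σ ((hN σ).2 (hF σ hσ))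
        rwa [IsGalois.fixedField_fixingSubgroup] at h3
      · have h3 : σ * σ ∈ N := by
          rw [hN, map_mul, Units.val_mul, map_mul, ← pow_two]
          have h4 := DFunLike.congr_fun h2 ((galEquivZMod q L σ : (ZMod q)ˣ) : ZMod q)
          rwa [MulChar.pow_apply_coe, MulChar.one_apply (Units.isUnit _)] at h4
        exact hx _ h3
    intro σ hσ
    have h5 := IntermediateField.fixingSubgroup_antitone hle hσ
    rw [IntermediateField.fixingSubgroup_fixedField] at h5
    exact h5

/-- a real character is a product of Legendre symbols -/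
theorem real_jc (hq : Odd q) (χ : DirichletCharacter ℂ q) (h : χ ^ 2 = 1) :
    ∃ T ⊆ q.primeFactors, ∀ u : (ZMod q)ˣ, χ (u : ZMod q) = (jc T u : ℂ) := by
  classical
  have hv : ∀ u : (ZMod q)ˣ, χ (u : ZMod q) = 1 ∨ χ (u : ZMod q) = -1 := by
    intro u
    have h1 := DFunLike.congr_fun h (u : ZMod q)
    rw [MulChar.pow_apply_coe, MulChar.one_apply u.isUnit] at h1
    have h2 : (χ (u : ZMod q) - 1) * (χ (u : ZMod q) + 1) = 0 := by linear_combination h1
    rcases mul_eq_zero.1 h2 with h3 | h3
    · exact Or.inl (sub_eq_zero.1 h3)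
    · exact Or.inr (eq_neg_of_add_eq_zero_left h3)
  set θ : (ZMod q)ˣ → ℤ := fun u => if χ (u : ZMod q) = 1 then 1 else -1 with hθ
  have hθv : ∀ u : (ZMod q)ˣ, ((θ u : ℤ) : ℂ) = χ (u : ZMod q) := by
    intro u
    rcases hv u with h1 | h1
    · rw [hθ]
      simp only [h1, if_true]
      norm_num
    · rw [hθ]
      simp only [h1]
      norm_num
  obtain ⟨T, hT, hTu⟩ := real_char hq θ (by
    intro u v
    have h1 : ((θ (u * v) : ℤ) : ℂ) = ((θ u * θ v : ℤ) : ℂ) := by
      rw [hθv, Units.val_mul, map_mul]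
      push_cast
      rw [hθv, hθv]
    exact_mod_cast h1) (by
    intro u
    rw [hθ]
    dsimp only
    split_ifs
    · exact Or.inl rfl
    · exact Or.inr rfl)
  exact ⟨T, hT, fun u => by rw [← hθv, hTu]⟩

theorem T_prime (hq : Odd q) {T : Finset ℕ} (hT : T ⊆ q.primeFactors) :
    ∀ p ∈ T, p.Prime ∧ p ≠ 2 := by
  intro p hp
  refine ⟨Nat.prime_of_mem_primeFactors (hT hp), ?_⟩
  rintro rfl
  have h5 : 2 ∣ q := Nat.dvd_of_mem_primeFactors (hT hp)
  obtain ⟨j, hj⟩ := hq
  omega

theorem dd_dvd_q {T : Finset ℕ} (hT : T ⊆ q.primeFactors) : dd T ∣ q :=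
  Finset.prod_primes_dvd _ (fun p hp => (Nat.prime_of_mem_primeFactors (hT hp)).prime)
    fun p hp => Nat.dvd_of_mem_primeFactors (hT hp)

theorem disc_natAbs (T : Finset ℕ) : (disc T).natAbs = dd T := by
  classical
  unfold disc dd
  induction T using Finset.induction_on with
  | empty => simp
  | insert p T hp ih =>
    rw [prod_insert hp, prod_insert hp, Int.natAbs_mul, ih, Int.natAbs_mul, Int.natAbs_pow]
    simp

/-- the square root that belongs to a character -/
theorem sqrt_mem (hq : Odd q) (F : IntermediateField ℚ L) {T : Finset ℕ}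
    (hT : T ⊆ q.primeFactors) (h : ∀ σ ∈ F.fixingSubgroup, jc T (galEquivZMod q L σ) = 1) :
    ∃ g : L, g ∈ F ∧ g ^ 2 = ((disc T : ℤ) : L) ∧ ∀ σ : Gal(L/ℚ),
      σ g = ((jc T (galEquivZMod q L σ) : ℤ) : L) * g := by
  have hgal : IsGalois ℚ L := IsCyclotomicExtension.isGalois {q} ℚ L
  obtain ⟨g, hg1, hg2⟩ := gauss_T q L (T_prime hq hT)
    fun p hp => Nat.dvd_of_mem_primeFactors (hT hp)
  refine ⟨g, ?_, hg1, hg2⟩
  have h3 : g ∈ IntermediateField.fixedField F.fixingSubgroup := by
    rw [IntermediateField.mem_fixedField_iff]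
    intro σ hσ
    rw [hg2 σ, h σ hσ, Int.cast_one, one_mul]
  rwa [IsGalois.fixedField_fixingSubgroup] at h3

end

/-- the central values for the real characters -/
theorem val_ne {s t : ℚ → ℤ} {Op Om : ℝ} (hS : Sy s t Op Om) {N : ℕ} [NeZero N] {T : Finset ℕ}
    (hTp : ∀ p ∈ T, p.Prime ∧ p ≠ 2) (hTn : dd T ∣ N) (hGT : GT (dd T))
    (χ : DirichletCharacter ℂ N) (hT : ∀ u : (ZMod N)ˣ, χ (u : ZMod N) = (jc T u : ℂ)) :
    haveI : NeZero χ.conductor := ⟨χ.conductor_ne_zero⟩
    ∑ u : (ZMod χ.conductor)ˣ, (χ.primitiveCharacter)⁻¹ (u : ZMod χ.conductor) *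
      II (((u : ZMod χ.conductor).val : ℚ) / χ.conductor) ≠ 0 := by
  have hnz : NeZero χ.conductor := ⟨χ.conductor_ne_zero⟩
  have hodd : Odd (dd T) := Nat.odd_iff.2 (by have := hGT.mod4; omega)
  obtain ⟨ψ, hψ, hψj⟩ := H385.jac_char (dd T) hodd hGT.sqf
  have h2 : χ = DirichletCharacter.changeLevel hTn ψ := by
    apply MulChar.ext
    intro u
    rw [hT u, DirichletCharacter.changeLevel_eq_cast_of_dvd]
    have := hψj (u : ZMod N).val
    rw [ZMod.natCast_val] at this
    exact this.symm
  have hcond : χ.conductor = dd T := by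
    rw [h2]
    exact conductor_changeLevel hTn hψ
  refine basel_gen hS.pos hS.H.toSymb hS.re χ.conductor (by rw [hcond]; exact hGT.mod4)
    (by rw [hcond]; exact hGT.SS_ne hS.H) (χ.primitiveCharacter)⁻¹ fun u => ?_
  have h3 := Pool.Agent.Y18.NF.pv_jac N hTp hTn hT (u : ZMod χ.conductor).val
  rw [ZMod.natCast_val, ZMod.cast_id', id] at h3
  have h5 : jacobiSym ((u : ZMod χ.conductor).val : ℤ) χ.conductor =
      jacobiSym ((u : ZMod χ.conductor).val : ℤ) (dd T) := congrArg _ hcond
  rw [MulChar.inv_apply_eq_inv', h3, h5]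
  have h4 : jacobiSym ((u : ZMod χ.conductor).val : ℤ) (dd T) = 1 ∨
      jacobiSym ((u : ZMod χ.conductor).val : ℤ) (dd T) = -1 := by
    rw [← h5]
    apply jacobiSym.eq_one_or_neg_one
    rw [Int.gcd_natCast_natCast]
    exact ZMod.val_coe_unit_coprime u
  rcases h4 with h4 | h4
  · rw [h4]; norm_num
  · rw [h4]; norm_num

end Pool.Agent.U621.PAR
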