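import Mathlib
import Pool.Agent.U621.PAR.Fld

/-!
# The subfield generated by the square roots of the integers
-/

set_option autoImplicit false

set_option linter.unusedSectionVars false

set_option linter.unusedVariables false

namespace Pool.Agent.U621.PAR

open Finset NumberField IsCyclotomicExtension.Rat H300.HW

open Pool.Agent.Y18.BSD Pool.Agent.Y18.NF

theorem sqf_sub {a b k : ℕ} (ha : Squarefree a) (hb : Squarefree b) (h : a * b = k * k) :
    a.primeFactors ⊆ b.primeFactors := by
  intro p hp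
  have hpp := Nat.prime_of_mem_primeFactors hp
  have hpa := Nat.dvd_of_mem_primeFactors hp
  refine Nat.mem_primeFactors.2 ⟨hpp, ?_, hb.ne_zero⟩
  have h1 : p ∣ k := by
    have : p ∣ k * k := by rw [← h]; exact hpa.mul_right b
    exact (hpp.dvd_mul.1 this).elim id id
  have h2 : p * p ∣ a * b := by rw [h]; exact mul_dvd_mul h1 h1
  by_contra hpb
  have h3 : Nat.Coprime (p * p) b :=
    Nat.Coprime.mul_left ((Nat.Prime.coprime_iff_not_dvd hpp).2 hpb)
      ((Nat.Prime.coprime_iff_not_dvd hpp).2 hpb)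
  have h4 : p * p ∣ a := h3.dvd_of_dvd_mul_right h2
  exact hpp.one_lt.ne' (Nat.isUnit_iff.1 (ha p h4))

theorem sqf_eq {a b k : ℕ} (ha : Squarefree a) (hb : Squarefree b) (h : a * b = k * k) :
    a = b := by
  rw [← Nat.prod_primeFactors_of_squarefree ha, ← Nat.prod_primeFactors_of_squarefree hb,
    Finset.Subset.antisymm (sqf_sub ha hb h) (sqf_sub hb ha (by rw [mul_comm]; exact h))]

/-- the subfield generated by the square roots of the integers that lie in `K` -/
noncomputable def sqf {L : Type} [Field L] [NumberField L] (K : IntermediateField ℚ L) :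
    IntermediateField ℚ L :=
  IntermediateField.adjoin ℚ {z : L | z ∈ K ∧ ∃ e : ℤ, z ^ 2 = (e : L)}

section

variable {q : ℕ} [NeZero q] {L : Type} [Field L] [NumberField L] [IsCyclotomicExtension {q} ℚ L]

theorem sqf_le (K : IntermediateField ℚ L) : sqf K ≤ K :=
  IntermediateField.adjoin_le_iff.2 fun _ hz => hz.1

theorem sqf_inv (K : IntermediateField ℚ L) {x : L} (hx : x ∈ sqf K) (σ : Gal(L/ℚ)) :
    σ (σ x) = x := by
  have h1 : sqf K ≤ IntermediateField.fixedField (Subgroup.zpowers (σ * σ)) := by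
    refine IntermediateField.adjoin_le_iff.2 fun z hz => ?_
    obtain ⟨-, e, he⟩ := hz
    have h2 : (σ * σ) z = z := by
      have h3 : (σ z) ^ 2 = z ^ 2 := by rw [← map_pow, he, map_intCast]
      rcases sq_eq_sq_iff_eq_or_eq_neg.1 h3 with h4 | h4
      · rw [AlgEquiv.mul_apply, h4, h4]
      · rw [AlgEquiv.mul_apply, h4, map_neg, h4, neg_neg]
    show z ∈ IntermediateField.fixedField (Subgroup.zpowers (σ * σ))
    rw [IntermediateField.mem_fixedField_iff]
    intro τ hτ
    have h5 : Subgroup.zpowers (σ * σ) ≤ MulAction.stabilizer Gal(L/ℚ) z := by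
      rw [Subgroup.zpowers_le]
      exact h2
    exact h5 hτ
  have h2 := h1 hx
  rw [IntermediateField.mem_fixedField_iff] at h2
  exact h2 (σ * σ) (Subgroup.mem_zpowers _)

theorem sqf_two (hq : Odd q) (K : IntermediateField ℚ L) : IsTwo K (sqf K) := by
  classical
  have hgal : IsGalois ℚ L := IsCyclotomicExtension.isGalois {q} ℚ L
  intro x
  refine ⟨fun hx => ⟨sqf_le K hx, sqf_inv K hx⟩, fun hx => ?_⟩
  -- the field of the elements fixed by the squares
  set M : IntermediateField ℚ L :=
    K ⊓ IntermediateField.fixedField (Subgroup.closure {τ : Gal(L/ℚ) | ∃ σ, τ = σ * σ}) with hM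
  have hM2 : IsTwo K M := by
    intro y
    rw [hM, IntermediateField.mem_inf, IntermediateField.mem_fixedField_iff]
    refine and_congr_right fun _ => ⟨fun h σ => h (σ * σ) (Subgroup.subset_closure ⟨σ, rfl⟩),
      fun h τ hτ => ?_⟩
    have h5 : Subgroup.closure {τ : Gal(L/ℚ) | ∃ σ, τ = σ * σ} ≤
        MulAction.stabilizer Gal(L/ℚ) y := by
      rw [Subgroup.closure_le]
      rintro τ ⟨σ, rfl⟩
      exact h σ
    exact h5 hτ
  have hxM : x ∈ M := (hM2 x).2 hx
  have h1 : x ∈ IntermediateField.fixedField (sqf K).fixingSubgroup := by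
    rw [IntermediateField.mem_fixedField_iff]
    intro σ hσ
    have h2 : σ ∈ M.fixingSubgroup := by
      rw [mem_fixing_iff q L]
      intro χ hχ
      obtain ⟨hχK, hχ2⟩ := (YY_two hM2 χ).1 hχ
      obtain ⟨T, hT, hTχ⟩ := real_jc hq χ hχ2
      rw [hTχ]
      obtain ⟨g, hgK, hg2, hgσ⟩ := sqrt_mem hq K hT (by
        intro τ hτ
        rw [mem_YY] at hχK
        have h7 := hχK τ hτ
        rw [hTχ] at h7
        exact_mod_cast h7)
      have hTp := T_prime hq hT
      have hdisc0 : disc T ≠ 0 := by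
        intro h0
        have h1 := disc_natAbs T
        rw [h0, Int.natAbs_zero] at h1
        exact dd_ne_zero (fun p hp => (hTp p hp).1) h1.symm
      have hg0 : g ≠ 0 := by
        rintro rfl
        rw [zero_pow two_ne_zero] at hg2
        exact hdisc0 (by exact_mod_cast hg2.symm)
      have hgm : g ∈ sqf K := IntermediateField.subset_adjoin _ _ ⟨hgK, disc T, hg2⟩
      rw [IntermediateField.mem_fixingSubgroup_iff] at hσ
      have h8 := hgσ σ
      rw [hσ g hgm] at h8
      have h9 : ((jc T (galEquivZMod q L σ) : ℤ) : L) = 1 := by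
        apply mul_right_cancel₀ hg0
        rw [one_mul]
        exact h8.symm
      have h10 : jc T (galEquivZMod q L σ) = 1 := by exact_mod_cast h9
      rw [h10, Int.cast_one]
    rw [IntermediateField.mem_fixingSubgroup_iff] at h2
    exact h2 x hxM
  rwa [IsGalois.fixedField_fixingSubgroup] at h1

/-- a square root of an integer in the cyclotomic field -/
theorem sqrt_disc (hq : Odd q) {e : ℤ} (he : Squarefree e) {z : L} (hz : z ^ 2 = (e : L)) :
    ∃ T ⊆ q.primeFactors, e = disc T := by
  classical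
  have hgal : IsGalois ℚ L := IsCyclotomicExtension.isGalois {q} ℚ L
  have hz0 : z ≠ 0 := by
    rintro rfl
    rw [zero_pow two_ne_zero] at hz
    exact he.ne_zero (by exact_mod_cast hz.symm)
  have hzσ : ∀ σ : Gal(L/ℚ), σ z = z ∨ σ z = -z := by
    intro σ
    have h3 : (σ z) ^ 2 = z ^ 2 := by rw [← map_pow, hz, map_intCast]
    exact sq_eq_sq_iff_eq_or_eq_neg.1 h3
  set θ : (ZMod q)ˣ → ℤ := fun u => if (galEquivZMod q L).symm u z = z then 1 else -1 with hθ
  have hθy : ∀ u : (ZMod q)ˣ, (galEquivZMod q L).symm u z = ((θ u : ℤ) : L) * z := by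
    intro u
    rw [hθ]
    dsimp only
    split_ifs with h1
    · rw [h1, Int.cast_one, one_mul]
    · rw [(hzσ _).resolve_left h1, Int.cast_neg, Int.cast_one, neg_one_mul]
  obtain ⟨T, hTq, hTθ⟩ := real_char hq θ (by
    intro u v
    have h1 : ((θ (u * v) : ℤ) : L) * z = ((θ u * θ v : ℤ) : L) * z := by
      rw [← hθy, map_mul]
      show (galEquivZMod q L).symm u ((galEquivZMod q L).symm v z) = _
      rw [hθy v, map_mul, map_intCast, hθy u]
      push_cast
      ring
    exact_mod_cast mul_right_cancel₀ hz0 h1) (by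
    intro u
    rw [hθ]
    dsimp only
    split_ifs
    · exact Or.inl rfl
    · exact Or.inr rfl)
  refine ⟨T, hTq, ?_⟩
  have hTp := T_prime hq hTq
  obtain ⟨g, hg2, hgσ⟩ := gauss_T q L hTp fun p hp => Nat.dvd_of_mem_primeFactors (hTq hp)
  have hdisc0 : disc T ≠ 0 := by
    intro h0
    have h1 := disc_natAbs T
    rw [h0, Int.natAbs_zero] at h1
    exact dd_ne_zero (fun p hp => (hTp p hp).1) h1.symm
  have hg0 : g ≠ 0 := by
    rintro rfl
    rw [zero_pow two_ne_zero] at hg2
    exact hdisc0 (by exact_mod_cast hg2.symm)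
  have hrat : ∀ z : L, (∀ σ : Gal(L/ℚ), σ z = z) → ∃ r : ℚ, algebraMap ℚ L r = z := by
    intro z hz
    have h1 : z ∈ (⊥ : IntermediateField ℚ L) := by
      rw [← InfiniteGalois.fixedField_bot] <;> try infer_instance
      rw [IntermediateField.mem_fixedField_iff]
      exact fun σ _ => hz σ
    exact IntermediateField.mem_bot.1 h1
  obtain ⟨w, hw⟩ := hrat (z * g) (by
    intro σ
    rw [map_mul, hgσ σ]
    have h1 := hθy (galEquivZMod q L σ)
    rw [MulEquiv.symm_apply_apply, hTθ] at h1
    rw [h1]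
    have h3 := jc_sq T (dd_dvd_q hTq) (galEquivZMod q L σ)
    have h4 : ((jc T (galEquivZMod q L σ) : ℤ) : L) * ((jc T (galEquivZMod q L σ) : ℤ) : L) = 1 := by
      have h5 : jc T (galEquivZMod q L σ) * jc T (galEquivZMod q L σ) = 1 := by
        rw [← pow_two]; exact h3
      exact_mod_cast h5
    linear_combination (z * g) * h4)
  -- `w ^ 2 = e disc T`
  have hw2 : w ^ 2 = ((e * disc T : ℤ) : ℚ) := by
    have h1 : algebraMap ℚ L (w ^ 2) = algebraMap ℚ L ((e * disc T : ℤ) : ℚ) := by
      rw [map_pow, hw, map_intCast, mul_pow, hz, hg2]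
      push_cast
      ring
    exact (algebraMap ℚ L).injective h1
  have hsqT : Squarefree (disc T) := by
    rw [← Int.squarefree_natAbs, disc_natAbs]
    exact dd_sqfree fun p hp => (hTp p hp).1
  have hw3 : IsSquare (e * disc T) := by
    rw [← Rat.isSquare_intCast_iff, ← hw2]
    exact ⟨w, pow_two w⟩
  obtain ⟨k, hk⟩ := hw3
  have hk0 : 0 ≤ e * disc T := by rw [hk]; exact mul_self_nonneg k
  have hnat : e.natAbs * (disc T).natAbs = k.natAbs * k.natAbs := by
    rw [← Int.natAbs_mul, hk, Int.natAbs_mul]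
  have h5 : e.natAbs = (disc T).natAbs := by
    have ha : Squarefree e.natAbs := Int.squarefree_natAbs.2 he
    have hb : Squarefree (disc T).natAbs := Int.squarefree_natAbs.2 hsqT
    exact sqf_eq ha hb hnat
  have h6 : 0 < e * disc T := lt_of_le_of_ne hk0 (mul_ne_zero he.ne_zero hdisc0).symm
  rcases Int.natAbs_eq_natAbs_iff.1 h5 with h7 | h7
  · exact h7
  · exfalso
    rw [h7] at h6
    nlinarith [mul_self_nonneg (disc T)]

end

end Pool.Agent.U621.PAR
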