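import Mathlib

/-!
# Integral matrices of finite order without the eigenvalues one and minus one
-/

set_option autoImplicit false

namespace Pool.Agent.U621.PAR

open Polynomial Filter

/-- a real polynomial of odd degree has a root -/
theorem real_root {p : ℝ[X]} (hp : p.Monic) (ho : Odd p.natDegree) : ∃ x : ℝ, p.eval x = 0 := by
  have hdeg : 0 < p.degree := by
    rw [← Polynomial.natDegree_pos_iff_degree_pos]
    exact ho.pos
  have h1 : Tendsto (fun x => p.eval x) atTop atTop :=
    Polynomial.tendsto_atTop_of_leadingCoeff_nonneg p hdeg (by rw [hp.leadingCoeff]; norm_num)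
  set q : ℝ[X] := p.comp (-X) with hq
  have hX : (-X : ℝ[X]).natDegree = 1 := by
    rw [Polynomial.natDegree_neg, Polynomial.natDegree_X]
  have hql : q.leadingCoeff = -1 := by
    rw [hq, Polynomial.leadingCoeff_comp (by rw [hX]; exact one_ne_zero), hp.leadingCoeff,
      Polynomial.leadingCoeff_neg, Polynomial.leadingCoeff_X, ho.neg_one_pow, one_mul]
  have hqd : 0 < q.degree := by
    rw [← Polynomial.natDegree_pos_iff_degree_pos, hq, Polynomial.natDegree_comp, hX, mul_one]
    exact ho.pos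
  have h2 : Tendsto (fun x => q.eval x) atTop atBot :=
    Polynomial.tendsto_atBot_of_leadingCoeff_nonpos q hqd (by rw [hql]; norm_num)
  obtain ⟨a, ha⟩ := (h1.eventually (eventually_ge_atTop 0)).exists
  obtain ⟨b, hb⟩ := (h2.eventually (eventually_le_atBot 0)).exists
  have hb' : p.eval (-b) ≤ 0 := by
    have : q.eval b = p.eval (-b) := by
      rw [hq, Polynomial.eval_comp, Polynomial.eval_neg, Polynomial.eval_X]
    rw [← this]
    exact hb
  obtain ⟨x, hx⟩ := mem_range_of_exists_le_of_exists_ge (c := (0 : ℝ)) p.continuous ⟨-b, hb'⟩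
    ⟨a, ha⟩
  exact ⟨x, hx⟩

theorem pow_one_real {r : ℝ} {m : ℕ} (hm : 0 < m) (h : r ^ m = 1) : r = 1 ∨ r = -1 := by
  have h1 : |r| ^ m = 1 := by rw [← abs_pow, h, abs_one]
  have h2 : |r| = 1 := (pow_eq_one_iff_of_nonneg (abs_nonneg r) hm.ne').1 h1
  rcases abs_cases r with ⟨h3, -⟩ | ⟨h3, -⟩
  · left; rw [← h3, h2]
  · right; linarith

/-- an integral matrix of finite order whose square fixes no vector has even size -/
theorem even_size {n : ℕ} (M : Matrix (Fin n) (Fin n) ℤ) {m : ℕ} (hm : 0 < m) (hM : M ^ m = 1)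
    (h : ∀ v : Fin n → ℤ, M.mulVec (M.mulVec v) = v → v = 0) : Even n := by
  by_contra hn
  rw [Nat.not_even_iff_odd] at hn
  set A : Matrix (Fin n) (Fin n) ℝ := M.map (Int.castRingHom ℝ) with hA
  have hAm : A ^ m = 1 := by
    have h1 : ((Int.castRingHom ℝ).mapMatrix M) ^ m = 1 := by
      rw [← map_pow, hM, map_one]
    exact h1
  obtain ⟨r, hr⟩ := real_root (p := A.charpoly) A.charpoly_monic (by
    rw [Matrix.charpoly_natDegree_eq_dim, Fintype.card_fin]
    exact hn)
  rw [Matrix.eval_charpoly] at hr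
  obtain ⟨v, hv0, hv⟩ := Matrix.exists_mulVec_eq_zero_iff.2 hr
  have hv1 : A.mulVec v = r • v := by
    rw [Matrix.sub_mulVec, sub_eq_zero] at hv
    rw [← hv, Matrix.scalar_apply, ← Matrix.smul_one_eq_diagonal, Matrix.smul_mulVec,
      Matrix.one_mulVec]
  have hpow : ∀ k : ℕ, (A ^ k).mulVec v = r ^ k • v := by
    intro k
    induction k with
    | zero => rw [pow_zero, pow_zero, Matrix.one_mulVec, one_smul]
    | succ k ih =>
      rw [pow_succ, ← Matrix.mulVec_mulVec, hv1, Matrix.mulVec_smul, ih, smul_smul, pow_succ,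
        mul_comm]
  have h1 : r ^ m = 1 := by
    have h2 := hpow m
    rw [hAm, Matrix.one_mulVec] at h2
    obtain ⟨i, hi⟩ := Function.ne_iff.1 hv0
    have h3 := congrFun h2 i
    rw [Pi.smul_apply, smul_eq_mul] at h3
    have h4 : v i ≠ 0 := hi
    have h5 : (r ^ m - 1) * v i = 0 := by rw [sub_mul, one_mul, ← h3, sub_self]
    rcases mul_eq_zero.1 h5 with h6 | h6
    · linarith
    · exact absurd h6 h4
  obtain ⟨e, he, her⟩ : ∃ e : ℤ, e * e = 1 ∧ (e : ℝ) = r := by
    rcases pow_one_real hm h1 with h2 | h2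
    · exact ⟨1, by norm_num, by rw [h2]; norm_num⟩
    · exact ⟨-1, by norm_num, by rw [h2]; norm_num⟩
  have h2 : (Matrix.scalar (Fin n) e - M).det = 0 := by
    have h3 : ((Matrix.scalar (Fin n) e - M).det : ℝ) = 0 := by
      rw [← hr, ← her]
      have h4 := (Int.castRingHom ℝ).map_det (Matrix.scalar (Fin n) e - M)
      rw [map_sub] at h4
      have h5 : (Int.castRingHom ℝ).mapMatrix (Matrix.scalar (Fin n) e) =
          Matrix.scalar (Fin n) (e : ℝ) := by
        ext i j
        simp
      rw [h5] at h4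
      exact h4
    exact_mod_cast h3
  obtain ⟨w, hw0, hw⟩ := Matrix.exists_mulVec_eq_zero_iff.2 h2
  have hw1 : M.mulVec w = e • w := by
    rw [Matrix.sub_mulVec, sub_eq_zero] at hw
    rw [← hw, Matrix.scalar_apply, ← Matrix.smul_one_eq_diagonal, Matrix.smul_mulVec,
      Matrix.one_mulVec]
  refine hw0 (h w ?_)
  rw [hw1, Matrix.mulVec_smul, hw1, smul_smul, he, one_smul]

/-- the rank of a free group with an automorphism of finite order whose square fixes nothing -/
theorem even_free {W : Type} [AddCommGroup W] [Module.Finite ℤ W] [Module.Free ℤ W]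
    (T : W →ₗ[ℤ] W) {m : ℕ} (hm : 0 < m) (hT : T ^ m = 1) (h : ∀ w, T (T w) = w → w = 0) :
    Even (Module.finrank ℤ W) := by
  set b := Module.finBasis ℤ W with hb
  have h1 : ∀ w : W, (LinearMap.toMatrix b b T).mulVec (b.repr w) = b.repr (T w) := fun w =>
    LinearMap.toMatrix_mulVec_repr b b T w
  refine even_size (LinearMap.toMatrix b b T) hm ?_ ?_
  · have h2 : LinearMap.toMatrix b b (T ^ m) = (LinearMap.toMatrix b b T) ^ m := by
      exact map_pow (LinearMap.toMatrixAlgEquiv b) T m
    rw [← h2, hT]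
    exact LinearMap.toMatrix_one b
  · intro v hv
    obtain ⟨w, rfl⟩ : ∃ w : W, (b.repr w : Fin (Module.finrank ℤ W) → ℤ) = v :=
      ⟨b.equivFun.symm v, b.equivFun.apply_symm_apply v⟩
    rw [h1, h1] at hv
    have h3 : T (T w) = w := b.repr.injective (DFunLike.coe_injective hv)
    rw [h w h3]
    simp

end Pool.Agent.U621.PAR
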