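import Mathlib
import Pool.Agent.U621.PAR.Mat

/-!
# The parity of the rank of a finitely generated group with an action of a finite abelian group
-/

set_option autoImplicit false

set_option linter.unusedSectionVars false

namespace Pool.Agent.U621.PAR

/-- the rank modulo torsion -/
theorem finrank_quot_torsion (W : Type) [AddCommGroup W] [Module.Finite ℤ W] :
    Module.finrank ℤ (W ⧸ Submodule.torsion ℤ W) = Module.finrank ℤ W := by
  have h1 : Module.finrank ℤ (Submodule.torsion ℤ W) = 0 := by
    rw [Module.finrank_eq_zero_iff_isTorsion]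
    exact Submodule.torsion_isTorsion
  have h2 := Submodule.finrank_quotient_add_finrank (R := ℤ) (Submodule.torsion ℤ W)
  omega

/-- an automorphism of finite order such that the fixed points of its square are torsion -/
theorem even_tors {W : Type} [AddCommGroup W] [Module.Finite ℤ W] (T : W →ₗ[ℤ] W) {m : ℕ}
    (hm : 0 < m) (hT : T ^ m = 1) (h : ∀ w, T (T w) = w → ∃ k : ℤ, k ≠ 0 ∧ k • w = 0) :
    Even (Module.finrank ℤ W) := by
  set t := Submodule.torsion ℤ W with ht
  have hle : t ≤ t.comap T := by
    intro w hw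
    rw [Submodule.mem_comap]
    rw [ht, Submodule.mem_torsion_iff] at hw ⊢
    obtain ⟨a, ha⟩ := hw
    refine ⟨a, ?_⟩
    have h2 : (a : ℤ) • w = 0 := ha
    show (a : ℤ) • T w = 0
    rw [← map_smul, h2, map_zero]
  set T' : (W ⧸ t) →ₗ[ℤ] (W ⧸ t) := t.mapQ t T hle with hT'
  have hap : ∀ w : W, T' (Submodule.Quotient.mk w) = Submodule.Quotient.mk (T w) := fun w =>
    Submodule.mapQ_apply _ _ _ w
  have hpow : ∀ (k : ℕ) (w : W), (T' ^ k) (Submodule.Quotient.mk w) =
      Submodule.Quotient.mk ((T ^ k) w) := by
    intro k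
    induction k with
    | zero => intro w; rfl
    | succ k ih =>
      intro w
      rw [pow_succ, pow_succ, Module.End.mul_apply, Module.End.mul_apply, hap, ih]
  have hfree : Module.Free ℤ (W ⧸ t) := inferInstance
  rw [← finrank_quot_torsion W]
  refine even_free T' hm ?_ ?_
  · refine LinearMap.ext fun x => ?_
    obtain ⟨w, rfl⟩ := Submodule.Quotient.mk_surjective t x
    rw [hpow, hT]
    rfl
  · intro x hx
    obtain ⟨w, rfl⟩ := Submodule.Quotient.mk_surjective t x
    rw [hap, hap, Submodule.Quotient.eq, ht, Submodule.mem_torsion_iff] at hx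
    obtain ⟨a, ha⟩ := hx
    have ha' : (a : ℤ) • (T (T w) - w) = 0 := ha
    have ha0 : (a : ℤ) ≠ 0 := nonZeroDivisors.coe_ne_zero a
    have h2 : T (T ((a : ℤ) • w)) = (a : ℤ) • w := by
      rw [map_smul, map_smul]
      rwa [smul_sub, sub_eq_zero] at ha'
    obtain ⟨k, hk, hkw⟩ := h _ h2
    rw [Submodule.Quotient.mk_eq_zero, ht, Submodule.mem_torsion_iff]
    refine ⟨⟨k * (a : ℤ), mem_nonZeroDivisors_of_ne_zero (mul_ne_zero hk ha0)⟩, ?_⟩
    show (k * (a : ℤ)) • w = 0
    rw [mul_smul, hkw]

section

variable {G : Type} [CommGroup G] [Finite G] {A : Type} [AddCommGroup A] [Module.Finite ℤ A]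
  (ρ : G →* (A →ₗ[ℤ] A))

/-- the elements fixed by the squares of the elements of `S` -/
def fixS (S : Finset G) : Submodule ℤ A where
  carrier := {a | ∀ g ∈ S, ρ g (ρ g a) = a}
  zero_mem' := fun g _ => by rw [map_zero, map_zero]
  add_mem' := fun {a b} ha hb g hg => by rw [map_add, map_add, ha g hg, hb g hg]
  smul_mem' := fun c a ha g hg => by rw [map_smul, map_smul, ha g hg]

theorem mem_fixS {S : Finset G} {a : A} : a ∈ fixS ρ S ↔ ∀ g ∈ S, ρ g (ρ g a) = a := Iff.rfl

theorem rho_comm (g h : G) (a : A) : ρ g (ρ h a) = ρ h (ρ g a) := by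
  have h1 : (ρ g * ρ h) a = (ρ h * ρ g) a := by rw [← map_mul, ← map_mul, mul_comm]
  exact h1

theorem rho_mem {S : Finset G} (g : G) {a : A} (ha : a ∈ fixS ρ S) : ρ g a ∈ fixS ρ S := by
  intro h hh
  rw [rho_comm ρ h g, rho_comm ρ h g, ha h hh]

/-- one step -/
theorem fix_step [DecidableEq G] (S : Finset G) (g : G) :
    Even (Module.finrank ℤ (fixS ρ S) + Module.finrank ℤ (fixS ρ (insert g S))) := by
  set U := fixS ρ S with hU
  have hfin : Module.Finite ℤ U := inferInstance
  -- the square minus one on `U`
  let N : U →ₗ[ℤ] U :=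
    { toFun := fun a => ⟨ρ g (ρ g a.1) - a.1, U.sub_mem (rho_mem ρ g (rho_mem ρ g a.2)) a.2⟩
      map_add' := fun a b => by
        apply Subtype.ext
        show ρ g (ρ g (a.1 + b.1)) - (a.1 + b.1) = (ρ g (ρ g a.1) - a.1) + (ρ g (ρ g b.1) - b.1)
        rw [map_add, map_add]
        abel
      map_smul' := fun c a => by
        apply Subtype.ext
        show ρ g (ρ g (c • a.1)) - c • a.1 = c • (ρ g (ρ g a.1) - a.1)
        rw [map_smul, map_smul, smul_sub] }
  have hN : ∀ a : U, ((N a : U) : A) = ρ g (ρ g a.1) - a.1 := fun _ => rfl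
  -- the kernel
  have hker : Module.finrank ℤ (LinearMap.ker N) = Module.finrank ℤ (fixS ρ (insert g S)) := by
    have hmem : ∀ a : LinearMap.ker N, (a.1.1 : A) ∈ fixS ρ (insert g S) := by
      intro a h hh
      rcases Finset.mem_insert.1 hh with rfl | hh
      · have h1 := a.2
        rw [LinearMap.mem_ker] at h1
        have h2 : ρ h (ρ h a.1.1) - a.1.1 = 0 := by
          rw [← hN, h1]
          rfl
        exact sub_eq_zero.1 h2
      · exact a.1.2 h hh
    let f : LinearMap.ker N →ₗ[ℤ] fixS ρ (insert g S) :=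
      { toFun := fun a => ⟨a.1.1, hmem a⟩
        map_add' := fun _ _ => rfl
        map_smul' := fun _ _ => rfl }
    refine LinearEquiv.finrank_eq (LinearEquiv.ofBijective f ⟨?_, ?_⟩)
    · intro a b hab
      exact Subtype.ext (Subtype.ext (congrArg (fun x : fixS ρ (insert g S) => (x : A)) hab))
    · intro b
      refine ⟨⟨⟨b.1, fun h hh => b.2 h (Finset.mem_insert_of_mem hh)⟩, ?_⟩, rfl⟩
      rw [LinearMap.mem_ker]
      apply Subtype.ext
      rw [hN]
      exact sub_eq_zero.2 (b.2 g (Finset.mem_insert_self _ _))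
  -- the range
  have hrange : Even (Module.finrank ℤ (LinearMap.range N)) := by
    set R := LinearMap.range N with hR
    have hfR : Module.Finite ℤ R := inferInstance
    have hTU : ∀ a : U, ρ g a.1 ∈ U := fun a => rho_mem ρ g a.2
    let T : R →ₗ[ℤ] R :=
      { toFun := fun a => ⟨⟨ρ g a.1.1, hTU a.1⟩, by
          obtain ⟨b, hb⟩ := a.2
          refine ⟨⟨ρ g b.1, hTU b⟩, ?_⟩
          apply Subtype.ext
          rw [hN]
          show ρ g (ρ g (ρ g b.1)) - ρ g b.1 = ρ g a.1.1
          rw [← hb, hN, map_sub]⟩
        map_add' := fun a b => by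
          apply Subtype.ext; apply Subtype.ext
          exact map_add (ρ g) _ _
        map_smul' := fun c a => by
          apply Subtype.ext; apply Subtype.ext
          exact map_smul (ρ g) c _ }
    have hT : ∀ a : R, ((T a).1 : A) = ρ g a.1.1 := fun _ => rfl
    have hpow : ∀ (k : ℕ) (a : R), (((T ^ k) a).1 : A) = ρ (g ^ k) a.1.1 := by
      intro k
      induction k with
      | zero =>
        intro a
        rw [pow_zero, pow_zero, map_one]
        rfl
      | succ k ih =>
        intro a
        rw [pow_succ, Module.End.mul_apply, ih, hT, pow_succ, map_mul]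
        rfl
    have hcard : 0 < Nat.card G := Nat.card_pos
    refine even_tors T hcard ?_ ?_
    · refine LinearMap.ext fun a => ?_
      apply Subtype.ext; apply Subtype.ext
      rw [hpow, pow_card_eq_one', map_one]
      rfl
    · intro w hw
      have hw1 : ρ g (ρ g w.1.1) = w.1.1 := by
        have h1 := congrArg (fun x : R => (x.1 : A)) hw
        exact h1
      obtain ⟨b, hb⟩ := w.2
      have hb1 : ρ g (ρ g b.1) = b.1 + w.1.1 := by
        have h1 := hN b
        rw [hb] at h1
        rw [h1]
        abel
      have key : ∀ k : ℕ, ρ ((g ^ 2) ^ k) b.1 = b.1 + (k : ℤ) • w.1.1 := by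
        intro k
        induction k with
        | zero =>
          rw [pow_zero, map_one, Nat.cast_zero, zero_smul, add_zero]
          rfl
        | succ k ih =>
          rw [pow_succ', map_mul, Module.End.mul_apply, ih, map_add, map_smul]
          have h2 : ∀ x : A, ρ (g ^ 2) x = ρ g (ρ g x) := by
            intro x
            rw [pow_two, map_mul, Module.End.mul_apply]
          rw [h2, h2, hb1, hw1]
          push_cast
          rw [add_smul, one_smul]
          abel
      refine ⟨(Nat.card G : ℤ), by exact_mod_cast hcard.ne', ?_⟩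
      apply Subtype.ext; apply Subtype.ext
      have h3 := key (Nat.card G)
      rw [pow_card_eq_one', map_one] at h3
      have h4 : b.1 = b.1 + ((Nat.card G : ℕ) : ℤ) • (w.1.1 : A) := h3
      exact (left_eq_add.1 h4)
  have h1 := Submodule.finrank_quotient_add_finrank (R := ℤ) (LinearMap.ker N)
  have h2 : Module.finrank ℤ (U ⧸ LinearMap.ker N) = Module.finrank ℤ (LinearMap.range N) :=
    LinearEquiv.finrank_eq (LinearMap.quotKerEquivRange N)
  rw [← h1, h2, hker]
  obtain ⟨r, hr⟩ := hrange
  exact ⟨r + Module.finrank ℤ (fixS ρ (insert g S)), by rw [hr]; ring⟩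

/-- **The parity of the rank.** The rank has the parity of the rank of the group of the elements
fixed by all the squares. -/
theorem parity_fix [Fintype G] :
    Even (Module.finrank ℤ A + Module.finrank ℤ (fixS ρ (Finset.univ : Finset G))) := by
  classical
  have key : ∀ S : Finset G, Even (Module.finrank ℤ A + Module.finrank ℤ (fixS ρ S)) := by
    intro S
    induction S using Finset.induction_on with
    | empty =>
      have h1 : fixS ρ (∅ : Finset G) = ⊤ := by
        rw [eq_top_iff]
        intro a _ g hg
        exact absurd hg (Finset.notMem_empty g)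
      rw [h1, finrank_top]
      exact ⟨_, rfl⟩
    | insert g S _ ih =>
      have h2 := fix_step ρ S g
      have h3 : Even ((Module.finrank ℤ A + Module.finrank ℤ (fixS ρ S)) +
          (Module.finrank ℤ (fixS ρ S) + Module.finrank ℤ (fixS ρ (insert g S)))) := ih.add h2
      have h4 : (Module.finrank ℤ A + Module.finrank ℤ (fixS ρ S)) +
          (Module.finrank ℤ (fixS ρ S) + Module.finrank ℤ (fixS ρ (insert g S))) =
          (Module.finrank ℤ A + Module.finrank ℤ (fixS ρ (insert g S))) +
            (Module.finrank ℤ (fixS ρ S) + Module.finrank ℤ (fixS ρ S)) := by ring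
      rw [h4] at h3
      exact (Nat.even_add.1 h3).2 ⟨_, rfl⟩
  exact key Finset.univ

end

end Pool.Agent.U621.PAR
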