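import Mathlib
import Pool.Agent.U115.MQ2
import Pool.Agent.U621.PAR.Fld
import Pool.Agent.U621.PAR.Grp

/-!
# The action of the Galois group on the points over a cyclotomic field
-/

set_option autoImplicit false

set_option linter.unusedSectionVars false

set_option linter.unusedVariables false

namespace Pool.Agent.U621.PAR

open Finset NumberField IsCyclotomicExtension.Rat H300.HW WeierstrassCurve

open Pool.Agent.TH841.NF Pool.Agent.Y682

open Pool.Agent.Y682.XD (RR)

open Pool.Agent.Y18.BSD Pool.Agent.Y18.NF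

/-- the curve -/
abbrev WW (D : ℤ) (k : Type) [Field k] : WeierstrassCurve k := gc (13 * D) (128 * D ^ 2) k

/-- the homomorphism of the points given by a homomorphism of fields and a scaling -/
noncomputable def mtu {k k' : Type} [Field k] [Field k'] {ι : k →+* k'} {u : k'}
    {W : WeierstrassCurve k} {W' : WeierstrassCurve k'} (S : Sc ι u W W') : MP W →+ MP W' where
  toFun := tF S
  map_zero' := rfl
  map_add' := @tF_add _ _ _ _ _ _ _ _ S (Classical.decEq k) (Classical.decEq k')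

lemma sc_hom (D : ℤ) {k k' : Type} [Field k] [Field k'] (ι : k →+* k') :
    Sc ι 1 (WW D k) (WW D k') := by
  refine ⟨one_ne_zero, ?_, ?_, ?_, ?_, ?_⟩
  · change (0 : k') = ι (0 : k) * 1; rw [map_zero, zero_mul]
  · change (((13 * D : ℤ) : k')) = ι (((13 * D : ℤ) : k)) * 1 ^ 2
    rw [map_intCast]; ring
  · change (0 : k') = ι (0 : k) * 1 ^ 3; rw [map_zero, zero_mul]
  · change (((128 * D ^ 2 : ℤ) : k')) = ι (((128 * D ^ 2 : ℤ) : k)) * 1 ^ 4
    rw [map_intCast]; ring
  · change (0 : k') = ι (0 : k) * 1 ^ 6; rw [map_zero, zero_mul]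

section pk

variable {k : Type} [Field k] {W : WeierstrassCurve k}

/-- an affine point -/
def pk (W : WeierstrassCurve k) (x y : k) (h : W.toAffine.Nonsingular x y) : MP W :=
  Affine.Point.some x y h

lemma pk_cases (P : MP W) : P = 0 ∨ ∃ x y h, P = pk W x y h := by
  rcases P with _ | ⟨x, y, h⟩
  · exact Or.inl rfl
  · exact Or.inr ⟨x, y, h, rfl⟩

lemma pk_ext {x y x' y' : k} {h : W.toAffine.Nonsingular x y} {h' : W.toAffine.Nonsingular x' y'}
    (hx : x = x') (hy : y = y') : pk W x y h = pk W x' y' h' := by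
  subst hx hy
  rfl

lemma pk_inj {x y x' y' : k} {h : W.toAffine.Nonsingular x y}
    {h' : W.toAffine.Nonsingular x' y'} (e : pk W x y h = pk W x' y' h') : x = x' ∧ y = y' := by
  have h2 : (Affine.Point.some x y h : W.toAffine.Point) = Affine.Point.some x' y' h' := e
  rw [Affine.Point.some.injEq] at h2
  exact h2

lemma pk_ne {x y : k} {h : W.toAffine.Nonsingular x y} : pk W x y h ≠ 0 := fun e =>
  Affine.Point.some_ne_zero h e

lemma mtu_pk {k' : Type} [Field k'] {ι : k →+* k'} {u : k'} {W' : WeierstrassCurve k'}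
    (S : Sc ι u W W') (x y : k) (h : W.toAffine.Nonsingular x y) :
    mtu S (pk W x y h) = pk W' (ι x * u ^ 2) (ι y * u ^ 3) ((ns_iff S x y).2 h) := rfl

end pk

/-- the map of the points -/
noncomputable def ac (D : ℤ) {k k' : Type} [Field k] [Field k'] (ι : k →+* k') :
    MP (WW D k) →+ MP (WW D k') := mtu (sc_hom D ι)

lemma ns_map {D : ℤ} {k k' : Type} [Field k] [Field k'] (ι : k →+* k') {x y : k} :
    (WW D k').toAffine.Nonsingular (ι x) (ι y) ↔ (WW D k).toAffine.Nonsingular x y := by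
  have h1 := ns_iff (sc_hom D ι) x y
  rwa [one_pow, one_pow, mul_one, mul_one] at h1

lemma ac_pk {D : ℤ} {k k' : Type} [Field k] [Field k'] (ι : k →+* k') (x y : k)
    (h : (WW D k).toAffine.Nonsingular x y) :
    ac D ι (pk (WW D k) x y h) = pk (WW D k') (ι x) (ι y) ((ns_map ι).2 h) := by
  show mtu (sc_hom D ι) (pk (WW D k) x y h) = _
  rw [mtu_pk]
  exact pk_ext (by rw [one_pow, mul_one]) (by rw [one_pow, mul_one])

/-- when the action is trivial -/
lemma ac_fix {D : ℤ} {k : Type} [Field k] (ι : k →+* k) {x y : k} (h : (WW D k).toAffine.Nonsingular x y) :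
    ac D ι (pk (WW D k) x y h) = pk (WW D k) x y h ↔ ι x = x ∧ ι y = y := by
  rw [ac_pk]
  exact ⟨pk_inj, fun h1 => pk_ext h1.1 h1.2⟩

lemma ac_comp {D : ℤ} {k : Type} [Field k] (ι κ ν : k →+* k) (h : ∀ x, ν x = ι (κ x)) (P : MP (WW D k)) :
    ac D ν P = ac D ι (ac D κ P) := by
  rcases pk_cases P with rfl | ⟨x, y, hx, rfl⟩
  · rw [map_zero, map_zero, map_zero]
  · rw [ac_pk, ac_pk, ac_pk]
    exact pk_ext (h x) (h y)

lemma ac_id {D : ℤ} {k : Type} [Field k] (ι : k →+* k) (h : ∀ x, ι x = x) (P : MP (WW D k)) :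
    ac D ι P = P := by
  rcases pk_cases P with rfl | ⟨x, y, hx, rfl⟩
  · exact map_zero _
  · exact (ac_fix ι hx).2 ⟨h x, h y⟩

section

variable {q : ℕ} [NeZero q] {L : Type} [Field L] [NumberField L] [IsCyclotomicExtension {q} ℚ L]

/-- the points with coordinates in the subfield `F` -/
noncomputable def UU (D : ℤ) (F : IntermediateField ℚ L) : Submodule ℤ (MP (WW D L)) where
  carrier := {P | ∀ σ ∈ F.fixingSubgroup, ac D (σ : L →+* L) P = P}
  zero_mem' := fun σ _ => map_zero _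
  add_mem' := fun {a b} ha hb σ hσ => by rw [map_add, ha σ hσ, hb σ hσ]
  smul_mem' := fun c a ha σ hσ => by rw [map_zsmul, ha σ hσ]

lemma mem_UU {D : ℤ} {F : IntermediateField ℚ L} {P : MP (WW D L)} :
    P ∈ UU D F ↔ ∀ σ ∈ F.fixingSubgroup, ac D (σ : L →+* L) P = P := Iff.rfl

lemma mem_UU_pk {D : ℤ} (hgal : IsGalois ℚ L) {F : IntermediateField ℚ L} {x y : L}
    (h : (WW D L).toAffine.Nonsingular x y) : pk (WW D L) x y h ∈ UU D F ↔ x ∈ F ∧ y ∈ F := by
  have key : ∀ z : L, z ∈ F ↔ ∀ σ ∈ F.fixingSubgroup, σ z = z := by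
    intro z
    conv_lhs => rw [← IsGalois.fixedField_fixingSubgroup F]
    rw [IntermediateField.mem_fixedField_iff]
  rw [mem_UU, key x, key y]
  constructor
  · intro h1
    exact ⟨fun σ hσ => ((ac_fix _ h).1 (h1 σ hσ)).1, fun σ hσ => ((ac_fix _ h).1 (h1 σ hσ)).2⟩
  · rintro ⟨h1, h2⟩ σ hσ
    exact (ac_fix _ h).2 ⟨h1 σ hσ, h2 σ hσ⟩

/-- the rank over `F` -/
theorem finrank_UU (D : ℤ) (hgal : IsGalois ℚ L) (F : IntermediateField ℚ L) :
    Module.finrank ℤ (UU D F) = RR F D := by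
  have h1 : RR F D = Module.finrank ℤ (MP (WW D F)) := rfl
  rw [h1]
  set f : MP (WW D F) →+ MP (WW D L) := ac D (algebraMap F L) with hf
  have hmem : ∀ P : MP (WW D F), f P ∈ UU D F := by
    intro P
    rcases pk_cases P with rfl | ⟨x, y, hx, rfl⟩
    · rw [map_zero]
      exact (UU D F).zero_mem
    · rw [hf, ac_pk, mem_UU_pk hgal]
      exact ⟨x.2, y.2⟩
  let g : MP (WW D F) →ₗ[ℤ] UU D F :=
    { toFun := fun P => ⟨f P, hmem P⟩
      map_add' := fun P Q => Subtype.ext (map_add f P Q)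
      map_smul' := fun c P => Subtype.ext (map_zsmul f c P) }
  refine (LinearEquiv.finrank_eq (LinearEquiv.ofBijective g ⟨?_, ?_⟩)).symm
  · intro P Q hPQ
    have h2 : f P = f Q := congrArg (fun x : UU D F => (x : MP (WW D L))) hPQ
    rw [hf] at h2
    rcases pk_cases P with rfl | ⟨x, y, hx, rfl⟩ <;> rcases pk_cases Q with rfl | ⟨x', y', hx', rfl⟩
    · rfl
    · rw [ac_pk, map_zero] at h2
      exact absurd h2.symm pk_ne
    · rw [ac_pk, map_zero] at h2
      exact absurd h2 pk_ne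
    · rw [ac_pk, ac_pk] at h2
      obtain ⟨h3, h4⟩ := pk_inj h2
      exact pk_ext (Subtype.ext h3) (Subtype.ext h4)
  · rintro ⟨P, hP⟩
    rcases pk_cases P with rfl | ⟨x, y, hx, rfl⟩
    · exact ⟨0, Subtype.ext (map_zero f)⟩
    · have h2 := (mem_UU_pk hgal hx).1 hP
      have hns : (WW D F).toAffine.Nonsingular (⟨x, h2.1⟩ : F) (⟨y, h2.2⟩ : F) :=
        (ns_map (algebraMap F L)).1 hx
      refine ⟨pk (WW D F) ⟨x, h2.1⟩ ⟨y, h2.2⟩ hns, Subtype.ext ?_⟩
      show f (pk (WW D F) ⟨x, h2.1⟩ ⟨y, h2.2⟩ hns) = _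
      rw [hf, ac_pk]
      rfl

lemma fg_L {D : ℤ} (hD : D ≠ 0) : Module.Finite ℤ (MP (WW D L)) := by
  have h2 : D ^ 2 ≠ 0 := pow_ne_zero 2 hD
  refine fg_MP (gc_isT (A := 13 * D) (B := 128 * D ^ 2) ?_ ?_ L)
  · exact mul_ne_zero (by norm_num) h2
  · have e1 : (13 * D) ^ 2 - 4 * (128 * D ^ 2) = -343 * D ^ 2 := by ring
    rw [e1]
    exact mul_ne_zero (by norm_num) h2

/-- the Galois group acts commutatively -/
lemma gal_comm (q : ℕ) [NeZero q] (L : Type) [Field L] [NumberField L]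
    [IsCyclotomicExtension {q} ℚ L] (σ τ : Gal(L/ℚ)) : σ * τ = τ * σ :=
  (galEquivZMod q L).injective (by rw [map_mul, map_mul, mul_comm])

/-- the representation of the units on the points over `F` -/
noncomputable def rho (D : ℤ) (F : IntermediateField ℚ L) : (ZMod q)ˣ →* (UU D F →ₗ[ℤ] UU D F) where
  toFun u :=
    { toFun := fun P => ⟨ac D (((galEquivZMod q L).symm u : Gal(L/ℚ)) : L →+* L) P.1, by
        intro σ hσ
        set τ := (galEquivZMod q L).symm u with hτ
        have h1 : ∀ x : L, σ (τ x) = τ (σ x) := fun x =>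
          DFunLike.congr_fun (gal_comm q L σ τ) x
        rw [← ac_comp (σ : L →+* L) (τ : L →+* L) ((σ * τ : Gal(L/ℚ)) : L →+* L) fun x => rfl]
        rw [ac_comp (τ : L →+* L) (σ : L →+* L) ((σ * τ : Gal(L/ℚ)) : L →+* L) fun x => h1 x]
        rw [P.2 σ hσ]⟩
      map_add' := fun P Q => Subtype.ext (map_add _ _ _)
      map_smul' := fun c P => Subtype.ext (map_zsmul _ _ _) }
  map_one' := by
    refine LinearMap.ext fun P => Subtype.ext ?_
    show ac D _ P.1 = P.1
    refine ac_id _ (fun x => ?_) _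
    rw [map_one]
    rfl
  map_mul' u v := by
    refine LinearMap.ext fun P => Subtype.ext ?_
    show ac D _ P.1 = ac D _ (ac D _ P.1)
    refine ac_comp _ _ _ (fun x => ?_) _
    rw [map_mul]
    rfl

lemma rho_val (D : ℤ) (F : IntermediateField ℚ L) (u : (ZMod q)ˣ) (P : UU D F) :
    ((rho D F u P : UU D F) : MP (WW D L)) = ac D (((galEquivZMod q L).symm u : Gal(L/ℚ)) : L →+* L) P.1 :=
  rfl

/-- the fixed points of the squares are the points over the largest subfield of exponent two -/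
theorem finrank_fix {D : ℤ} (hD : D ≠ 0) (hgal : IsGalois ℚ L) {F M : IntermediateField ℚ L} (h : IsTwo F M) :
    Module.finrank ℤ (fixS (rho (q := q) D F) (Finset.univ : Finset (ZMod q)ˣ)) =
      Module.finrank ℤ (UU D M) := by
  have hfg : Module.Finite ℤ (MP (WW D L)) := fg_L hD
  have hiff : ∀ P : UU D F, P ∈ fixS (rho (q := q) D F) (Finset.univ : Finset (ZMod q)ˣ) ↔
      P.1 ∈ UU D M := by
    rintro ⟨P, hP⟩
    rw [mem_fixS]
    have h0 : (∀ g ∈ (Finset.univ : Finset (ZMod q)ˣ), rho (q := q) D F g (rho D F g ⟨P, hP⟩) = ⟨P, hP⟩)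
        ↔ ∀ σ : Gal(L/ℚ), ac D (σ : L →+* L) (ac D (σ : L →+* L) P) = P := by
      constructor
      · intro h1 σ
        have h2 := congrArg (fun x : UU D F => (x : MP (WW D L))) (h1 (galEquivZMod q L σ) (mem_univ _))
        simp only [rho_val, MulEquiv.symm_apply_apply] at h2
        exact h2
      · intro h1 g _
        apply Subtype.ext
        rw [rho_val, rho_val]
        exact h1 _
    rw [h0]
    rcases pk_cases P with rfl | ⟨x, y, hx, rfl⟩
    · constructor
      · intro _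
        exact (UU D M).zero_mem
      · intro _ σ
        rw [map_zero, map_zero]
    · rw [mem_UU_pk hgal] at hP ⊢
      rw [h x, h y]
      constructor
      · intro h1
        refine ⟨⟨hP.1, fun σ => ?_⟩, ⟨hP.2, fun σ => ?_⟩⟩
        · have h2 := h1 σ
          rw [ac_pk, ac_pk] at h2
          exact (pk_inj h2).1
        · have h2 := h1 σ
          rw [ac_pk, ac_pk] at h2
          exact (pk_inj h2).2
      · rintro ⟨⟨-, h1⟩, ⟨-, h2⟩⟩ σ
        rw [ac_pk, ac_pk]
        exact pk_ext (h1 σ) (h2 σ)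
  have hMF : ∀ P : UU D M, P.1 ∈ UU D F := by
    intro P σ hσ
    exact P.2 σ (IntermediateField.fixingSubgroup_antitone (two_le h) hσ)
  let g : UU D M →ₗ[ℤ] fixS (rho (q := q) D F) (Finset.univ : Finset (ZMod q)ˣ) :=
    { toFun := fun P => ⟨⟨P.1, hMF P⟩, (hiff _).2 P.2⟩
      map_add' := fun P Q => rfl
      map_smul' := fun c P => rfl }
  refine (LinearEquiv.finrank_eq (LinearEquiv.ofBijective g ⟨?_, ?_⟩)).symm
  · intro P Q hPQ
    have h2 : P.1 = Q.1 := congrArg
      (fun x : fixS (rho (q := q) D F) (Finset.univ : Finset (ZMod q)ˣ) => (x.1.1 : MP (WW D L))) hPQ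
    exact Subtype.ext h2
  · intro P
    exact ⟨⟨P.1.1, (hiff P.1).1 P.2⟩, rfl⟩

/-- **The parity of the rank over an abelian field.** -/
theorem rank_par (q : ℕ) [NeZero q] [IsCyclotomicExtension {q} ℚ L] {D : ℤ} (hD : D ≠ 0)
    {F M : IntermediateField ℚ L} (h : IsTwo F M) : Even (RR F D + RR M D) := by
  have hgal : IsGalois ℚ L := IsCyclotomicExtension.isGalois {q} ℚ L
  have hfg := fg_L (L := L) hD
  have h1 := parity_fix (rho (q := q) D F)
  rwa [finrank_fix hD hgal h, finrank_UU D hgal, finrank_UU D hgal] at h1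

end

end Pool.Agent.U621.PAR
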