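import Mathlib
import Pool.Agent.U621.PAR.Pts

/-!
# The rank over the largest subfield of exponent two
-/

set_option autoImplicit false

set_option linter.unusedSectionVars false

set_option linter.unusedVariables false

namespace Pool.Agent.U621.PAR

open Finset NumberField IsCyclotomicExtension.Rat H300.HW WeierstrassCurve

open Pool.Agent.TH841.NF Pool.Agent.Y682

open Pool.Agent.Y682.XD (RR)

open Pool.Agent.Y18.BSD Pool.Agent.Y18.NF

/-- torsion points -/
def Tor {A : Type} [AddCommGroup A] (P : A) : Prop := ∃ k : ℤ, k ≠ 0 ∧ k • P = 0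

lemma Tor.map {A B : Type} [AddCommGroup A] [AddCommGroup B] (f : A →+ B) {P : A} (h : Tor P) :
    Tor (f P) := by
  obtain ⟨k, hk, hP⟩ := h
  exact ⟨k, hk, by rw [← map_zsmul, hP, map_zero]⟩

lemma Tor.add {A : Type} [AddCommGroup A] {P Q : A} (h : Tor P) (h' : Tor Q) : Tor (P + Q) := by
  obtain ⟨k, hk, hP⟩ := h
  obtain ⟨l, hl, hQ⟩ := h'
  refine ⟨k * l, mul_ne_zero hk hl, ?_⟩
  rw [smul_add, mul_smul k l Q, hQ, smul_zero, add_zero, mul_comm, mul_smul, hP, smul_zero]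

lemma Tor.half {A : Type} [AddCommGroup A] {P : A} (h : Tor (P + P)) : Tor P := by
  obtain ⟨k, hk, hP⟩ := h
  refine ⟨k * 2, mul_ne_zero hk two_ne_zero, ?_⟩
  rw [mul_smul, two_smul]
  exact hP

section

variable {q : ℕ} [NeZero q] {L : Type} [Field L] [NumberField L] [IsCyclotomicExtension {q} ℚ L]

/-- a simultaneous eigenvector -/
theorem exists_eig {D : ℤ} {M : IntermediateField ℚ L} (hcomm : ∀ σ τ : Gal(L/ℚ), σ * τ = τ * σ)
    (hinv : ∀ P ∈ UU D M, ∀ σ : Gal(L/ℚ), ac D (σ : L →+* L) (ac D (σ : L →+* L) P) = P)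
    (hst : ∀ P ∈ UU D M, ∀ σ : Gal(L/ℚ), ac D (σ : L →+* L) P ∈ UU D M)
    {P₀ : MP (WW D L)} (h0 : P₀ ∈ UU D M) (h0t : ¬ Tor P₀) (S : Finset Gal(L/ℚ)) :
    ∃ P ∈ UU D M, ¬ Tor P ∧ ∀ σ ∈ S, ac D (σ : L →+* L) P = P ∨ ac D (σ : L →+* L) P = -P := by
  classical
  induction S using Finset.induction_on with
  | empty => exact ⟨P₀, h0, h0t, fun σ hσ => absurd hσ (notMem_empty σ)⟩
  | insert σ S hσ ih =>
    obtain ⟨P, hP, hPt, hS⟩ := ih
    set Q := ac D (σ : L →+* L) P with hQ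
    have hQM : Q ∈ UU D M := hst P hP σ
    have hQQ : ac D (σ : L →+* L) Q = P := hinv P hP σ
    have hcom : ∀ τ : Gal(L/ℚ), ac D (τ : L →+* L) Q = ac D (σ : L →+* L) (ac D (τ : L →+* L) P) := by
      intro τ
      rw [hQ, ← ac_comp (τ : L →+* L) (σ : L →+* L) ((τ * σ : Gal(L/ℚ)) : L →+* L) fun x => rfl]
      rw [ac_comp (σ : L →+* L) (τ : L →+* L) ((τ * σ : Gal(L/ℚ)) : L →+* L) fun x =>
        DFunLike.congr_fun (hcomm τ σ) x]
    have hQS : ∀ τ ∈ S, (ac D (τ : L →+* L) P = P ∧ ac D (τ : L →+* L) Q = Q) ∨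
        (ac D (τ : L →+* L) P = -P ∧ ac D (τ : L →+* L) Q = -Q) := by
      intro τ hτ
      rcases hS τ hτ with h | h
      · exact Or.inl ⟨h, by rw [hcom, h]⟩
      · exact Or.inr ⟨h, by rw [hcom, h, map_neg]⟩
    by_cases hplus : Tor (P + Q)
    · refine ⟨P - Q, (UU D M).sub_mem hP hQM, fun ht => hPt ?_, fun τ hτ => ?_⟩
      · apply Tor.half
        have h1 : P + P = (P + Q) + (P - Q) := by abel
        rw [h1]
        exact hplus.add ht
      · rcases mem_insert.1 hτ with rfl | hτ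
        · right
          rw [map_sub, hQQ, ← hQ]
          abel
        · rcases hQS τ hτ with ⟨h1, h2⟩ | ⟨h1, h2⟩
          · left; rw [map_sub, h1, h2]
          · right; rw [map_sub, h1, h2]; abel
    · refine ⟨P + Q, (UU D M).add_mem hP hQM, hplus, fun τ hτ => ?_⟩
      rcases mem_insert.1 hτ with rfl | hτ
      · left
        rw [map_add, hQQ, ← hQ]
        abel
      · rcases hQS τ hτ with ⟨h1, h2⟩ | ⟨h1, h2⟩
        · left; rw [map_add, h1, h2]
        · right; rw [map_add, h1, h2]; abel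

/-- negation -/
lemma neg_pk {D : ℤ} {k : Type} [Field k] {x y : k} (h : (WW D k).toAffine.Nonsingular x y) :
    ∃ h', -(pk (WW D k) x y h) = pk (WW D k) x (-y) h' := by
  have h1 : (WW D k).toAffine.negY x y = -y := by
    unfold Affine.negY
    change -y - (0 : k) * x - 0 = -y
    ring
  have h2 : (WW D k).toAffine.Nonsingular x (-y) := by
    rw [← h1]
    exact (Affine.nonsingular_neg x y).2 h
  refine ⟨h2, ?_⟩
  show -(Affine.Point.some x y h : (WW D k).toAffine.Point) = Affine.Point.some x (-y) h2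
  rw [Affine.Point.neg_some]
  have key : ∀ (z : k) (hz : (WW D k).toAffine.Nonsingular x z), z = -y →
      (Affine.Point.some x z hz : (WW D k).toAffine.Point) = Affine.Point.some x (-y) h2 := by
    intro z hz e
    subst e
    rfl
  exact key _ _ h1

/-- the scaling to the twist -/
lemma sc_tw {D e : ℤ} {g : L} (hg : g ^ 2 = (e : L)) (he : e ≠ 0) :
    Sc (algebraMap ℚ L) g⁻¹ (WW (D * e) ℚ) (WW D L) := by
  have hgne : g ≠ 0 := by
    rintro rfl
    rw [zero_pow two_ne_zero] at hg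
    exact he (by exact_mod_cast hg.symm)
  have h2 : g⁻¹ ^ 2 * (e : L) = 1 := by
    rw [← hg, inv_pow, inv_mul_cancel₀ (pow_ne_zero 2 hgne)]
  refine ⟨inv_ne_zero hgne, ?_, ?_, ?_, ?_, ?_⟩
  · change (0 : L) = algebraMap ℚ L (0 : ℚ) * g⁻¹; rw [map_zero, zero_mul]
  · change (((13 * D : ℤ) : L)) = algebraMap ℚ L (((13 * (D * e) : ℤ) : ℚ)) * g⁻¹ ^ 2
    rw [map_intCast]
    push_cast
    linear_combination -(13 * (D : L)) * h2
  · change (0 : L) = algebraMap ℚ L (0 : ℚ) * g⁻¹ ^ 3; rw [map_zero, zero_mul]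
  · change (((128 * D ^ 2 : ℤ) : L)) = algebraMap ℚ L (((128 * (D * e) ^ 2 : ℤ) : ℚ)) * g⁻¹ ^ 4
    rw [map_intCast]
    push_cast
    have h4 : g⁻¹ ^ 4 * (e : L) ^ 2 = 1 := by
      have : g⁻¹ ^ 4 * (e : L) ^ 2 = (g⁻¹ ^ 2 * (e : L)) ^ 2 := by ring
      rw [this, h2, one_pow]
    linear_combination -(128 * (D : L) ^ 2) * h4
  · change (0 : L) = algebraMap ℚ L (0 : ℚ) * g⁻¹ ^ 6; rw [map_zero, zero_mul]

/-- **The rank over the largest subfield of exponent two.** -/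
theorem rank_zero (hq : Odd q) {D : ℤ} (hD : D ≠ 0) {F M : IntermediateField ℚ L}
    (h : IsTwo F M)
    (hT : ∀ T ⊆ q.primeFactors, (∀ σ ∈ F.fixingSubgroup, jc T (galEquivZMod q L σ) = 1) →
      RR ℚ (D * disc T) = 0) : RR M D = 0 := by
  classical
  have hgal : IsGalois ℚ L := IsCyclotomicExtension.isGalois {q} ℚ L
  have hfg : Module.Finite ℤ (MP (WW D L)) := fg_L hD
  rw [← finrank_UU D hgal M]
  rw [Module.finrank_eq_zero_iff_isTorsion]
  by_contra hnt
  -- a point of infinite order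
  obtain ⟨P₀, hP₀, hP₀t⟩ : ∃ P ∈ UU D M, ¬ Tor P := by
    by_contra hall
    push Not at hall
    apply hnt
    intro P
    obtain ⟨k, hk, hkP⟩ := hall P.1 P.2
    exact ⟨⟨k, mem_nonZeroDivisors_of_ne_zero hk⟩, Subtype.ext hkP⟩
  have hinv : ∀ P ∈ UU D M, ∀ σ : Gal(L/ℚ),
      ac D (σ : L →+* L) (ac D (σ : L →+* L) P) = P := by
    intro P hP σ
    rcases pk_cases P with rfl | ⟨x, y, hx, rfl⟩
    · rw [map_zero, map_zero]
    · rw [mem_UU_pk hgal, h x, h y] at hP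
      rw [ac_pk, ac_pk]
      exact pk_ext (hP.1.2 σ) (hP.2.2 σ)
  have hcomm := gal_comm q L
  have hst : ∀ P ∈ UU D M, ∀ σ : Gal(L/ℚ), ac D (σ : L →+* L) P ∈ UU D M := by
    intro P hP σ τ hτ
    rw [← ac_comp (τ : L →+* L) (σ : L →+* L) ((τ * σ : Gal(L/ℚ)) : L →+* L) fun x => rfl]
    rw [ac_comp (σ : L →+* L) (τ : L →+* L) ((τ * σ : Gal(L/ℚ)) : L →+* L) fun x =>
      DFunLike.congr_fun (hcomm τ σ) x]
    rw [hP τ hτ]
  have hfG : Fintype Gal(L/ℚ) := Fintype.ofFinite _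
  obtain ⟨P, hP, hPt, hPe⟩ := exists_eig hcomm hinv hst hP₀ hP₀t (Finset.univ : Finset Gal(L/ℚ))
  rcases pk_cases P with rfl | ⟨x, y, hx, rfl⟩
  · exact hPt ⟨1, one_ne_zero, smul_zero _⟩
  obtain ⟨hneg, hneg'⟩ := neg_pk hx
  have hxy : ∀ σ : Gal(L/ℚ), σ x = x ∧ (σ y = y ∨ σ y = -y) := by
    intro σ
    rcases hPe σ (mem_univ σ) with h1 | h1
    · rw [ac_pk] at h1
      obtain ⟨h2, h3⟩ := pk_inj h1
      exact ⟨h2, Or.inl h3⟩
    · rw [ac_pk, hneg'] at h1
      obtain ⟨h2, h3⟩ := pk_inj h1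
      exact ⟨h2, Or.inr h3⟩
  have hy0 : y ≠ 0 := by
    intro hy
    apply hPt
    apply Tor.half
    refine ⟨1, one_ne_zero, ?_⟩
    rw [one_smul]
    have h1 : pk (WW D L) x y hx = -(pk (WW D L) x y hx) := by
      rw [hneg']
      exact pk_ext rfl (by rw [hy, neg_zero])
    nth_rewrite 2 [h1]
    exact add_neg_cancel _
  -- the character
  set θ : (ZMod q)ˣ → ℤ := fun u => if (galEquivZMod q L).symm u y = y then 1 else -1 with hθ
  have hθy : ∀ u : (ZMod q)ˣ, (galEquivZMod q L).symm u y = ((θ u : ℤ) : L) * y := by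
    intro u
    rw [hθ]
    dsimp only
    split_ifs with h1
    · rw [h1, Int.cast_one, one_mul]
    · rw [((hxy _).2).resolve_left h1, Int.cast_neg, Int.cast_one, neg_one_mul]
  obtain ⟨T, hTq, hTθ⟩ := real_char hq θ (by
    intro u v
    have h1 : ((θ (u * v) : ℤ) : L) * y = ((θ u * θ v : ℤ) : L) * y := by
      rw [← hθy, map_mul]
      show (galEquivZMod q L).symm u ((galEquivZMod q L).symm v y) = _
      rw [hθy v, map_mul, map_intCast, hθy u]
      push_cast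
      ring
    exact_mod_cast mul_right_cancel₀ hy0 h1) (by
    intro u
    rw [hθ]
    dsimp only
    split_ifs
    · exact Or.inl rfl
    · exact Or.inr rfl)
  have hyM := ((mem_UU_pk hgal hx).1 hP).2
  have hTF : ∀ σ ∈ F.fixingSubgroup, jc T (galEquivZMod q L σ) = 1 := by
    intro σ hσ
    have h1 : σ y = y := by
      rw [IntermediateField.mem_fixingSubgroup_iff] at hσ
      exact hσ y ((two_le h) hyM)
    rw [← hTθ, hθ]
    dsimp only
    rw [MulEquiv.symm_apply_apply, if_pos h1]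
  obtain ⟨g, hgF, hg2, hgσ⟩ := sqrt_mem hq F hTq hTF
  have hTp := T_prime hq hTq
  have hdisc0 : disc T ≠ 0 := by
    intro h0
    have h1 := disc_natAbs T
    rw [h0, Int.natAbs_zero] at h1
    exact dd_ne_zero (fun p hp => (hTp p hp).1) h1.symm
  have hg0 : g ≠ 0 := by
    rintro rfl
    rw [zero_pow two_ne_zero] at hg2
    exact hdisc0 (by exact_mod_cast hg2.symm)
  -- the coordinates are rational
  have hrat : ∀ z : L, (∀ σ : Gal(L/ℚ), σ z = z) → ∃ r : ℚ, algebraMap ℚ L r = z := by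
    intro z hz
    have h1 : z ∈ (⊥ : IntermediateField ℚ L) := by
      rw [← InfiniteGalois.fixedField_bot] <;> try infer_instance
      rw [IntermediateField.mem_fixedField_iff]
      exact fun σ _ => hz σ
    exact IntermediateField.mem_bot.1 h1
  obtain ⟨x₀, hx₀⟩ := hrat x fun σ => (hxy σ).1
  obtain ⟨w, hw⟩ := hrat (y / g) (by
    intro σ
    rw [map_div₀, hgσ σ]
    have h1 := hθy (galEquivZMod q L σ)
    rw [MulEquiv.symm_apply_apply, hTθ] at h1
    rw [h1]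
    have h2 : ((jc T (galEquivZMod q L σ) : ℤ) : L) ≠ 0 := by
      have h3 := jc_sq T (dd_dvd_q hTq) (galEquivZMod q L σ)
      intro h4
      have h5 : jc T (galEquivZMod q L σ) = 0 := by exact_mod_cast h4
      rw [h5] at h3
      norm_num at h3
    field_simp)
  have hyw : y = algebraMap ℚ L w * g := by
    rw [hw, div_mul_cancel₀ _ hg0]
  -- the point on the twist
  have hS := sc_tw (D := D) hg2 hdisc0
  set e : ℤ := disc T with he
  have hgi : g⁻¹ ^ 2 * ((e : ℤ) : L) = 1 := by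
    rw [← hg2, inv_pow, inv_mul_cancel₀ (pow_ne_zero 2 hg0)]
  have hX : algebraMap ℚ L (x₀ * e) * g⁻¹ ^ 2 = x := by
    rw [map_mul, map_intCast, hx₀]
    linear_combination x * hgi
  have hY : algebraMap ℚ L (w * e ^ 2) * g⁻¹ ^ 3 = y := by
    rw [map_mul, map_pow, map_intCast, hyw]
    have h4 : g⁻¹ ^ 4 * ((e : ℤ) : L) ^ 2 = 1 := by
      have : g⁻¹ ^ 4 * ((e : ℤ) : L) ^ 2 = (g⁻¹ ^ 2 * ((e : ℤ) : L)) ^ 2 := by ring
      rw [this, hgi, one_pow]
    have h5 : g⁻¹ ^ 3 = g * g⁻¹ ^ 4 := by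
      field_simp
    rw [h5]
    linear_combination (algebraMap ℚ L w * g) * h4
  have hns : (WW (D * e) ℚ).toAffine.Nonsingular (x₀ * e) (w * e ^ 2) := by
    rw [← ns_iff hS, hX, hY]
    exact hx
  have himg : mtu hS (pk (WW (D * e) ℚ) _ _ hns) = pk (WW D L) x y hx := by
    rw [mtu_pk]
    exact pk_ext hX hY
  apply hPt
  rw [← himg]
  apply Tor.map
  -- the group over the rational numbers is torsion
  have hDe : D * e ≠ 0 := mul_ne_zero hD hdisc0
  have h1 : Module.finrank ℤ (MP (WW (D * e) ℚ)) = 0 := hT T hTq hTF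
  have hfgQ : Module.Finite ℤ (MP (WW (D * e) ℚ)) := fg_L hDe
  rw [Module.finrank_eq_zero_iff_isTorsion] at h1
  obtain ⟨k, hk⟩ := @h1 (pk (WW (D * e) ℚ) _ _ hns)
  exact ⟨(k : ℤ), nonZeroDivisors.coe_ne_zero k, hk⟩

end

end Pool.Agent.U621.PAR
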